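import Pool.Agent.helper18.Eis.Series

set_option autoImplicit false

open scoped UpperHalfPlane MatrixGroups Topology
open Filter MeasureTheory

namespace Pool.Agent.helper18.Eis

noncomputable section

variable {Γ : Subgroup SL(2, ℝ)}

/-- first coefficient -/
def al (h : SL(2, ℝ)) (η : ℝ) : ℝ := h 0 0 - h 1 0 * η

/-- second coefficient -/
def be (h : SL(2, ℝ)) (η : ℝ) : ℝ := h 0 1 - h 1 1 * η

/-- the function `B` of the funnel coordinates -/
def Bf (h : SL(2, ℝ)) (η x θ : ℝ) : ℝ :=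
  (al h η * Real.exp (θ / 2) + be h η * Real.exp (-(θ / 2))) ^ 2 +
    Real.exp (-(2 * x)) * (al h η * Real.exp (θ / 2) - be h η * Real.exp (-(θ / 2))) ^ 2

/-- the size of `B` -/
def qf (h : SL(2, ℝ)) (η : ℝ) : ℝ := al h η ^ 2 + be h η ^ 2

lemma Kf_fermi (h : SL(2, ℝ)) (η : ℝ) (hη : 0 < η) (x θ : ℝ) :
    Kf h η (fermi x θ) = Real.exp x / (8 * η) * Bf h η x θ := by
  rw [Kf, Complex.normSq_apply]
  change (((al h η : ℂ) * (fermi x θ) + (be h η : ℂ)).re * ((al h η : ℂ) * (fermi x θ) +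
    (be h η : ℂ)).re + ((al h η : ℂ) * (fermi x θ) + (be h η : ℂ)).im *
    ((al h η : ℂ) * (fermi x θ) + (be h η : ℂ)).im) / (4 * η * (fermi x θ).im) = _
  rw [Complex.add_re, Complex.add_im, Complex.re_ofReal_mul, Complex.im_ofReal_mul,
    Complex.ofReal_re, Complex.ofReal_im, UpperHalfPlane.coe_re, UpperHalfPlane.coe_im,
    fermi_re, fermi_im, Real.tanh_eq_sinh_div_cosh, Bf]
  have hc := (Real.cosh_pos x).ne'
  have hch : Real.cosh x ^ 2 = Real.sinh x ^ 2 + 1 := Real.cosh_sq x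
  have hE : Real.exp θ = Real.exp (θ / 2) ^ 2 := by
    rw [← Real.exp_nat_mul]; congr 1; push_cast; ring
  have hF : Real.exp (-(θ / 2)) = (Real.exp (θ / 2))⁻¹ := Real.exp_neg _
  have hX : Real.exp (-(2 * x)) = (Real.exp x)⁻¹ ^ 2 := by
    rw [← Real.exp_neg, ← Real.exp_nat_mul]; congr 1; push_cast; ring
  have hcx : Real.cosh x = (Real.exp x + (Real.exp x)⁻¹) / 2 := by
    rw [Real.cosh_eq, Real.exp_neg]
  have hsx : Real.sinh x = (Real.exp x - (Real.exp x)⁻¹) / 2 := by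
    rw [Real.sinh_eq, Real.exp_neg]
  have hE0 := (Real.exp_pos (θ / 2)).ne'
  have hX0 := (Real.exp_pos x).ne'
  rw [hE, hF, hX]
  set e := Real.exp (θ / 2)
  set A := al h η
  set B := be h η
  have key : ((A * (e ^ 2 * (Real.sinh x / Real.cosh x)) + B) *
      (A * (e ^ 2 * (Real.sinh x / Real.cosh x)) + B) +
      (A * (e ^ 2 * (Real.cosh x)⁻¹) + 0) * (A * (e ^ 2 * (Real.cosh x)⁻¹) + 0)) /
      (4 * η * (e ^ 2 * (Real.cosh x)⁻¹)) =
      (Real.cosh x * (A ^ 2 * e ^ 2 + B ^ 2 / e ^ 2) + 2 * A * B * Real.sinh x) / (4 * η) := by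
    field_simp
    ring_nf
    rw [hch]
    ring
  rw [key, hcx, hsx]
  set X := Real.exp x
  field_simp
  ring

lemma qf_eq (h : SL(2, ℝ)) (η : ℝ) (hη : 0 < η) : qf h η = 4 * η * Kf h η (fermi 0 0) := by
  rw [Kf_fermi h η hη, Bf, qf]
  simp only [zero_div, neg_zero, Real.exp_zero, mul_one, mul_zero]
  field_simp
  ring

/-- if the coefficients have opposite signs, `h` moves a point of `{Re z > 0}` into itself -/
lemma exists_of_neg (h : SL(2, ℝ)) (η : ℝ) (hη : 0 < η) (hneg : al h η * be h η < 0) :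
    ∃ z : ℍ, 0 < z.re ∧ 0 < (h • z : ℍ).re := by
  have hdet : h 0 0 * h 1 1 - h 0 1 * h 1 0 = 1 := by
    have := h.2
    rwa [Matrix.det_fin_two] at this
  have hA : al h η ≠ 0 := by rintro h0; rw [h0] at hneg; simp at hneg
  set ζ₀ : ℝ := -(be h η) / al h η with hζ₀
  have hζpos : 0 < ζ₀ := by
    have : 0 < -(al h η * be h η) / (al h η) ^ 2 := div_pos (by linarith) (by positivity)
    convert this using 1
    rw [hζ₀]; field_simp
  have hroot : al h η * ζ₀ + be h η = 0 := by rw [hζ₀]; field_simp; ring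
  have hroot' : h 0 0 * ζ₀ + h 0 1 = η * (h 1 0 * ζ₀ + h 1 1) := by
    rw [al, be] at hroot; linarith
  have hQ : h 1 0 * ζ₀ + h 1 1 ≠ 0 := by
    intro h0
    rw [h0, mul_zero] at hroot'
    have h1 : h 1 1 = -(h 1 0 * ζ₀) := by linarith
    have h2 : h 0 1 = -(h 0 0 * ζ₀) := by linarith
    rw [h1, h2] at hdet
    ring_nf at hdet
    norm_num at hdet
  set P : ℝ := η * (h 1 0 * ζ₀ + h 1 1) ^ 2 with hP
  have hPpos : 0 < P := by positivity
  set m : ℝ := |h 0 0 * h 1 0| + 1 with hm'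
  have hmpos : 0 < m := by positivity
  set ε : ℝ := Real.sqrt (P / (2 * m)) with hε
  have hεpos : 0 < ε := Real.sqrt_pos.mpr (by positivity)
  have hε2 : ε ^ 2 = P / (2 * m) := Real.sq_sqrt (by positivity)
  refine ⟨⟨⟨ζ₀, ε⟩, hεpos⟩, hζpos, ?_⟩
  have hN := Complex.normSq_pos.mpr (denom_ne h ⟨⟨ζ₀, ε⟩, hεpos⟩)
  rw [← UpperHalfPlane.coe_re, coe_smul', Complex.div_re, ← add_div]
  apply div_pos _ hN
  simp only [Complex.add_re, Complex.mul_re, Complex.ofReal_re, Complex.ofReal_im,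
    zero_mul, sub_zero, Complex.add_im, Complex.mul_im, add_zero]
  have h3 : -(m * ε ^ 2) ≤ h 0 0 * h 1 0 * ε ^ 2 := by
    have : -m ≤ h 0 0 * h 1 0 := by
      have := neg_abs_le (h 0 0 * h 1 0)
      linarith
    nlinarith [sq_nonneg ε]
  have h4 : m * ε ^ 2 = P / 2 := by rw [hε2]; field_simp
  have h5 : (h 0 0 * ζ₀ + h 0 1) * (h 1 0 * ζ₀ + h 1 1) = P := by rw [hroot', hP]; ring
  nlinarith

lemma al_be_nonneg {g₁ g₂ : SL(2, ℝ)} (hd : DisjointFunnels Γ g₁ g₂) (γ : Γ) (η : ℝ)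
    (hη : 0 < η) : 0 ≤ al (hm g₁ g₂ γ) η * be (hm g₁ g₂ γ) η := by
  by_contra hneg
  push Not at hneg
  obtain ⟨z, hz, hz'⟩ := exists_of_neg _ η hη hneg
  exact hd _ (Γ.inv_mem γ.2) z hz hz'

lemma qf_pos (h : SL(2, ℝ)) (η : ℝ) : 0 < qf h η := by
  have hdet : h 0 0 * h 1 1 - h 0 1 * h 1 0 = 1 := by
    have := h.2
    rwa [Matrix.det_fin_two] at this
  by_contra hle
  push Not at hle
  have h1 : al h η ^ 2 = 0 := by
    have := sq_nonneg (al h η); have := sq_nonneg (be h η); rw [qf] at hle; linarith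
  have h2 : be h η ^ 2 = 0 := by
    have := sq_nonneg (al h η); have := sq_nonneg (be h η); rw [qf] at hle; linarith
  have h3 : al h η = 0 := by simpa using h1
  have h4 : be h η = 0 := by simpa using h2
  rw [al] at h3
  rw [be] at h4
  have h5 : h 0 0 = h 1 0 * η := by linarith
  have h6 : h 0 1 = h 1 1 * η := by linarith
  rw [h5, h6] at hdet
  ring_nf at hdet
  norm_num at hdet

/-- lower bound for `B` -/
lemma Bf_ge (h : SL(2, ℝ)) (η x θ T : ℝ) (hab : 0 ≤ al h η * be h η) (hθ : |θ| ≤ T) :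
    Real.exp (-T) * qf h η ≤ Bf h η x θ := by
  have h1 : Real.exp (θ / 2) ^ 2 = Real.exp θ := by
    rw [← Real.exp_nat_mul]; congr 1; push_cast; ring
  have h2 : Real.exp (-(θ / 2)) ^ 2 = Real.exp (-θ) := by
    rw [← Real.exp_nat_mul]; congr 1; push_cast; ring
  have h3 : Real.exp (θ / 2) * Real.exp (-(θ / 2)) = 1 := by
    rw [← Real.exp_add]; simp
  have h4 : Real.exp (-T) ≤ Real.exp θ := Real.exp_le_exp.mpr (by linarith [neg_abs_le θ])
  have h5 : Real.exp (-T) ≤ Real.exp (-θ) := Real.exp_le_exp.mpr (by linarith [le_abs_self θ])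
  rw [Bf, qf]
  have h6 : 0 ≤ Real.exp (-(2 * x)) *
      (al h η * Real.exp (θ / 2) - be h η * Real.exp (-(θ / 2))) ^ 2 := by positivity
  have h7 : (al h η * Real.exp (θ / 2) + be h η * Real.exp (-(θ / 2))) ^ 2 =
      al h η ^ 2 * Real.exp θ + be h η ^ 2 * Real.exp (-θ) + 2 * (al h η * be h η) := by
    rw [← h1, ← h2]
    linear_combination (2 * al h η * be h η) * h3
  rw [h7]
  nlinarith [mul_le_mul_of_nonneg_left h4 (sq_nonneg (al h η)),
    mul_le_mul_of_nonneg_left h5 (sq_nonneg (be h η))]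

/-- upper bound for `B` -/
lemma Bf_le (h : SL(2, ℝ)) (η x θ T : ℝ) (hx : 0 ≤ x) (hθ : |θ| ≤ T) :
    Bf h η x θ ≤ 4 * Real.exp T * qf h η := by
  have h1 : Real.exp (θ / 2) ^ 2 = Real.exp θ := by
    rw [← Real.exp_nat_mul]; congr 1; push_cast; ring
  have h2 : Real.exp (-(θ / 2)) ^ 2 = Real.exp (-θ) := by
    rw [← Real.exp_nat_mul]; congr 1; push_cast; ring
  have h4 : Real.exp θ ≤ Real.exp T := Real.exp_le_exp.mpr (by linarith [le_abs_self θ])
  have h5 : Real.exp (-θ) ≤ Real.exp T := Real.exp_le_exp.mpr (by linarith [neg_abs_le θ])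
  have h6 : Real.exp (-(2 * x)) ≤ 1 := by rw [Real.exp_le_one_iff]; linarith
  have h7 : Bf h η x θ ≤ (al h η * Real.exp (θ / 2) + be h η * Real.exp (-(θ / 2))) ^ 2 +
      (al h η * Real.exp (θ / 2) - be h η * Real.exp (-(θ / 2))) ^ 2 := by
    rw [Bf]
    have := mul_le_mul_of_nonneg_right h6
      (sq_nonneg (al h η * Real.exp (θ / 2) - be h η * Real.exp (-(θ / 2))))
    linarith
  refine h7.trans ?_
  have h8 : (al h η * Real.exp (θ / 2) + be h η * Real.exp (-(θ / 2))) ^ 2 +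
      (al h η * Real.exp (θ / 2) - be h η * Real.exp (-(θ / 2))) ^ 2 =
      2 * (al h η ^ 2 * Real.exp θ + be h η ^ 2 * Real.exp (-θ)) := by
    rw [← h1, ← h2]; ring
  rw [h8, qf]
  have h9 := mul_le_mul_of_nonneg_left h4 (sq_nonneg (al h η))
  have h10 := mul_le_mul_of_nonneg_left h5 (sq_nonneg (be h η))
  have h11 : 0 ≤ Real.exp T * (al h η ^ 2 + be h η ^ 2) := by positivity
  nlinarith

lemma Bf_pos (h : SL(2, ℝ)) (η x θ : ℝ) (hab : 0 ≤ al h η * be h η) : 0 < Bf h η x θ :=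
  lt_of_lt_of_le (mul_pos (Real.exp_pos _) (qf_pos h η)) (Bf_ge h η x θ |θ| hab le_rfl)

lemma summable_qf (hΓ : ExponentLtHalf Γ) {g₁ : SL(2, ℝ)} {ℓ₁ : ℝ} (hf : IsFunnel Γ g₁ ℓ₁)
    (g₂ : SL(2, ℝ)) (ξ : ℝ) :
    Summable fun γ : Γ => qf (hm g₁ g₂ γ) (Real.exp ξ) ^ (-(1 / 2) : ℝ) := by
  obtain ⟨R, hR, hb⟩ := exists_bound hf g₂ (fermi 0 0)
  have hη := Real.exp_pos ξ
  refine Summable.of_nonneg_of_le (fun γ => Real.rpow_nonneg (qf_pos _ _).le _) (fun γ => ?_)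
    ((summable_D0 hΓ g₁ g₂ (fermi 0 0) (fermi 0 ξ)).mul_left
      ((4 * Real.exp ξ * (Real.exp (-(2 * R)) / 4) / 2) ^ (-(1 / 2) : ℝ)))
  apply rpow_bound (by positivity)
  rw [qf_eq _ _ hη, mul_assoc]
  exact mul_le_mul_of_nonneg_left (Kf_ge ξ hR γ (hb γ)) (by positivity)

end

end Pool.Agent.helper18.Eis
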