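import Pool.Agent.helper18.Eis.Main

set_option autoImplicit false

open scoped UpperHalfPlane MatrixGroups Topology
open Filter MeasureTheory

namespace Pool.Agent.helper18.Eis

noncomputable section

lemma flip_smul_re (z : ℍ) : (flip • z : ℍ).re = -(z.re / Complex.normSq z) := by
  rw [← UpperHalfPlane.coe_re, coe_smul']
  change ((((0 : ℝ) : ℂ) * (z : ℂ) + ((-1 : ℝ) : ℂ)) /
    (((1 : ℝ) : ℂ) * (z : ℂ) + ((0 : ℝ) : ℂ))).re = _
  rw [Complex.ofReal_zero, zero_mul, zero_add, Complex.ofReal_one, one_mul, add_zero,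
    Complex.div_re]
  simp [neg_div]

lemma flip_conj_dil (ℓ : ℝ) : flip * dil ℓ * flip⁻¹ = (dil ℓ)⁻¹ := by
  rw [mul_inv_eq_iff_eq_mul, eq_inv_mul_iff_mul_eq]
  ext i j
  have h : Real.exp (ℓ / 2) * Real.exp (-(ℓ / 2)) = 1 := by rw [← Real.exp_add]; simp
  have h' : Real.exp (-(ℓ / 2)) * Real.exp (ℓ / 2) = 1 := by rw [mul_comm]; exact h
  fin_cases i <;> fin_cases j <;>
    simp [flip, dil, Matrix.mul_apply, Fin.sum_univ_two, h, h']

lemma dil_zpow_smul_re (ℓ : ℝ) (n : ℤ) (z : ℍ) : 0 < (dil ℓ ^ n • z).re ↔ 0 < z.re := by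
  rw [← rc_pos_iff, rc_dil_zpow, rc_pos_iff]

lemma cylinder_free {ℓ : ℝ} (hℓ : 0 < ℓ) : ActsFreely (cylinderGroup ℓ) := by
  intro γ hγ z hz
  obtain ⟨n, rfl⟩ := Subgroup.mem_zpowers_iff.mp hγ
  rw [← fermi_rc_tc z, dil_zpow_smul_fermi] at hz
  have h := congrArg tc hz
  have htc : ∀ r θ : ℝ, tc (fermi r θ) = θ := by
    intro r θ
    have h1 : ‖((fermi r θ : ℍ) : ℂ)‖ = Real.exp θ := by
      have h2 : ‖((fermi r θ : ℍ) : ℂ)‖ ^ 2 = Real.exp θ ^ 2 := by
        rw [norm_sq_eq, fermi_re, fermi_im, Real.tanh_eq_sinh_div_cosh]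
        have hc := (Real.cosh_pos r).ne'
        have hch := Real.cosh_sq r
        field_simp
        linarith
      exact (pow_left_inj₀ (norm_nonneg _) (Real.exp_pos _).le two_ne_zero).mp h2
    rw [tc, h1, Real.log_exp]
  rw [htc, htc] at h
  have h3 : (n : ℝ) * ℓ = 0 := by linarith
  have h4 : (n : ℝ) = 0 := (mul_eq_zero.mp h3).resolve_right hℓ.ne'
  have h5 : n = 0 := by exact_mod_cast h4
  rw [h5, zpow_zero]

lemma fermi_zero_zero : fermi 0 0 = UpperHalfPlane.I := by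
  apply UpperHalfPlane.ext_re_im
  · rw [fermi_re]; simp
  · rw [fermi_im]; simp

lemma dist_dil (ℓ : ℝ) (n : ℤ) :
    dist UpperHalfPlane.I (dil ℓ ^ n • UpperHalfPlane.I) = |n * ℓ| := by
  rw [← fermi_zero_zero, dil_zpow_smul_fermi]
  have h := cosh_dist_fermi 0 0 0 (0 + n * ℓ)
  rw [Real.cosh_zero, Real.sinh_zero, one_mul, mul_zero, sub_zero, one_mul, zero_add, zero_sub,
    Real.cosh_neg] at h
  have h1 : |dist (fermi 0 0) (fermi 0 (n * ℓ))| = |n * ℓ| := by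
    apply le_antisymm
    · exact Real.cosh_le_cosh.mp h.le
    · exact Real.cosh_le_cosh.mp h.ge
  rw [abs_of_nonneg dist_nonneg] at h1
  rw [zero_add]
  exact h1

lemma cylinder_exponent {ℓ : ℝ} (hℓ : 0 < ℓ) : ExponentLtHalf (cylinderGroup ℓ) := by
  refine ⟨1 / 4, by norm_num, ?_⟩
  have hsec : ∀ γ : cylinderGroup ℓ, ∃ n : ℤ, dil ℓ ^ n = (γ : SL(2, ℝ)) := fun γ =>
    Subgroup.mem_zpowers_iff.mp γ.2
  choose σ hσ using hsec
  have hinj : Function.Injective σ := by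
    intro a b hab
    apply Subtype.ext
    rw [← hσ a, ← hσ b, hab]
  have hZ : Summable fun n : ℤ => Real.exp (-(1 / 4 * |n * ℓ|)) := by
    have hN : Summable fun n : ℕ => Real.exp (-(ℓ / 4)) ^ n :=
      summable_geometric_of_lt_one (Real.exp_pos _).le (by
        rw [Real.exp_lt_one_iff]; linarith)
    apply Summable.of_nat_of_neg
    · refine hN.congr fun n => ?_
      rw [← Real.exp_nat_mul]
      congr 1
      rw [abs_of_nonneg (by positivity)]
      push_cast; ring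
    · refine hN.congr fun n => ?_
      rw [← Real.exp_nat_mul]
      congr 1
      push_cast
      rw [neg_mul, abs_neg, abs_of_nonneg (by positivity)]
      ring
  refine (hZ.comp_injective hinj).congr fun γ => ?_
  rw [Function.comp_apply, ← dist_dil, hσ]
  rfl

theorem cylinder_twoFunnels {ℓ : ℝ} (hℓ : 0 < ℓ) :
    TwoFunnels (cylinderGroup ℓ) 1 flip ℓ ℓ := by
  refine ⟨cylinder_free hℓ, cylinder_exponent hℓ, ⟨hℓ, ?_, ?_⟩, ⟨hℓ, ?_, ?_⟩, ?_⟩
  · rw [one_mul, inv_one, mul_one]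
    exact Subgroup.mem_zpowers _
  · intro γ hγ z _ _
    obtain ⟨n, rfl⟩ := Subgroup.mem_zpowers_iff.mp hγ
    exact ⟨n, by rw [one_mul, inv_one, mul_one]⟩
  · rw [flip_conj_dil]
    exact Subgroup.inv_mem _ (Subgroup.mem_zpowers _)
  · intro γ hγ z _ _
    obtain ⟨n, rfl⟩ := Subgroup.mem_zpowers_iff.mp hγ
    refine ⟨-n, ?_⟩
    have h : flip * dil ℓ ^ (-n) * flip⁻¹ = (flip * dil ℓ * flip⁻¹) ^ (-n) := by
      rw [conj_zpow]
    rw [h, flip_conj_dil, inv_zpow, zpow_neg, inv_inv]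
  · intro γ hγ z hz h
    obtain ⟨n, rfl⟩ := Subgroup.mem_zpowers_iff.mp hγ
    rw [inv_one, one_mul, mul_smul, dil_zpow_smul_re, flip_smul_re] at h
    have : 0 < z.re / Complex.normSq z := div_pos hz z.normSq_pos
    linarith

end

end Pool.Agent.helper18.Eis
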