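import Mathlib

set_option autoImplicit false

/-!
# Eisenstein series on hyperbolic surfaces with funnels: the objects of MP_a92104_an
-/

open scoped UpperHalfPlane MatrixGroups Topology
open Filter

namespace Pool.Agent.helper18.Eis

noncomputable section

/-- The surface `X = Γ \ ℍ`, with the quotient topology. -/
abbrev Surf (Γ : Subgroup SL(2, ℝ)) : Type := MulAction.orbitRel.Quotient Γ ℍ

/-- The covering map `ℍ → X = Γ \ ℍ`. -/
def proj (Γ : Subgroup SL(2, ℝ)) (z : ℍ) : Surf Γ := Quotient.mk (MulAction.orbitRel Γ ℍ) z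

/-- `Γ` acts freely on `ℍ`, so that `Γ \ ℍ` is a hyperbolic surface covered by `ℍ`. -/
def ActsFreely (Γ : Subgroup SL(2, ℝ)) : Prop := ∀ γ ∈ Γ, ∀ z : ℍ, γ • z = z → γ = 1

/-- The critical exponent of `Γ` (the exponent `δ(Γ)`) is less than `1/2`: the Poincare series
`∑ exp (-a d(i, γ i))` converges for some `a < 1/2`. -/
def ExponentLtHalf (Γ : Subgroup SL(2, ℝ)) : Prop :=
  ∃ a : ℝ, a < 1 / 2 ∧
    Summable fun γ : Γ => Real.exp (-(a * dist UpperHalfPlane.I (γ • UpperHalfPlane.I)))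

/-- The hyperbolic isometry `z ↦ e^ℓ z` of `ℍ`. -/
def dil (ℓ : ℝ) : SL(2, ℝ) :=
  ⟨!![Real.exp (ℓ / 2), 0; 0, Real.exp (-(ℓ / 2))], by
    rw [Matrix.det_fin_two_of, mul_zero, sub_zero, ← Real.exp_add]; simp⟩

/-- The point of `ℍ` at signed distance `r` from the geodesic `(0, i∞)` whose foot point on this
geodesic is `i e^θ`.  In these coordinates the metric of `ℍ` is `dr² + cosh² r dθ²`. -/
def fermi (r θ : ℝ) : ℍ :=
  ⟨(Real.exp θ : ℂ) * ((Real.tanh r : ℂ) + ((Real.cosh r)⁻¹ : ℝ) * Complex.I), by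
    have h : 0 < Real.exp θ * (Real.cosh r)⁻¹ :=
      mul_pos (Real.exp_pos _) (inv_pos.mpr (Real.cosh_pos _))
    rwa [Complex.im_ofReal_mul, Complex.add_im, Complex.ofReal_im, Complex.mul_I_im,
      Complex.ofReal_re, zero_add]⟩

/-- `g {Re z > 0}` covers a funnel of `Γ \ ℍ` with boundary geodesic of length `ℓ`: the half plane
`g {Re z > 0}` is invariant under the element `g (z ↦ e^ℓ z) g⁻¹` of `Γ`, and every element of `Γ`
which does not move it off itself is a power of that element. -/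
def IsFunnel (Γ : Subgroup SL(2, ℝ)) (g : SL(2, ℝ)) (ℓ : ℝ) : Prop :=
  0 < ℓ ∧ g * dil ℓ * g⁻¹ ∈ Γ ∧
    ∀ γ ∈ Γ, ∀ z : ℍ, 0 < z.re → 0 < ((g⁻¹ * γ * g) • z).re →
      ∃ n : ℤ, γ = g * dil ℓ ^ n * g⁻¹

/-- The funnels of `Γ \ ℍ` covered by `g₁ {Re z > 0}` and `g₂ {Re z > 0}` are disjoint: no element
of `Γ` moves a point of one half plane into the other one. -/
def DisjointFunnels (Γ : Subgroup SL(2, ℝ)) (g₁ g₂ : SL(2, ℝ)) : Prop :=
  ∀ γ ∈ Γ, ∀ z : ℍ, 0 < z.re → ¬ 0 < ((g₁⁻¹ * γ * g₂) • z).re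

/-- `X = Γ \ ℍ` is a hyperbolic surface with `δ(Γ) < 1/2` and with two disjoint funnels, covered by
`g₁ {Re z > 0}` and `g₂ {Re z > 0}`, with boundary geodesics of lengths `ℓ₁` and `ℓ₂`. -/
def TwoFunnels (Γ : Subgroup SL(2, ℝ)) (g₁ g₂ : SL(2, ℝ)) (ℓ₁ ℓ₂ : ℝ) : Prop :=
  ActsFreely Γ ∧ ExponentLtHalf Γ ∧ IsFunnel Γ g₁ ℓ₁ ∧ IsFunnel Γ g₂ ℓ₂ ∧ DisjointFunnels Γ g₁ g₂

/-- The group generated by `z ↦ e^ℓ z`; its quotient is the hyperbolic cylinder whose closed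
geodesic has length `ℓ`. -/
def cylinderGroup (ℓ : ℝ) : Subgroup SL(2, ℝ) := Subgroup.zpowers (dil ℓ)

/-- The isometry `z ↦ -1/z`, which exchanges the half planes `{Re z > 0}` and `{Re z < 0}`. -/
def flip : SL(2, ℝ) := ⟨!![0, -1; 1, 0], by rw [Matrix.det_fin_two_of]; norm_num⟩

/-- The point with coordinates `(ρ, θ)` of the funnel covered by `g {Re z > 0}`.  With
`ρ = 2 e^(-r)` the metric `dr² + cosh² r dθ²` is `ρ⁻² (dρ² + (1 + ρ²/4)² dθ²)`, and `ρ = 0` is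
infinity. -/
def funnelPoint (Γ : Subgroup SL(2, ℝ)) (g : SL(2, ℝ)) (ρ θ : ℝ) : Surf Γ :=
  proj Γ (g • fermi (Real.log (2 / ρ)) θ)

/-- The kernel of the resolvent `(Δ - s(1-s))⁻¹` of the hyperbolic plane,
`(1/4π) ∫₀¹ (t(1-t))^(s-1) (t + sinh²(d/2))^(-s) dt` with `d = d(z,w)`; this is Euler's integral for
`(Γ(s)² / (4π Γ(2s))) σ^(-s) ₂F₁(s, s; 2s; 1/σ)`, `σ = cosh²(d/2)`. -/
def planeKernel (s : ℂ) (z w : ℍ) : ℂ :=
  1 / (4 * (Real.pi : ℂ)) * ∫ t in (0 : ℝ)..1,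
    (t : ℂ) ^ (s - 1) * (1 - (t : ℂ)) ^ (s - 1) *
      ((t + Real.sinh (dist z w / 2) ^ 2 : ℝ) : ℂ) ^ (-s)

/-- The kernel `R_X(s; p, q)` of the resolvent `(Δ_X - s(1-s))⁻¹` of `X = Γ \ ℍ`, as the sum over
`Γ` of the kernel of `ℍ` (absolutely convergent for `Re s > δ(Γ)`). -/
def resolventKernel (Γ : Subgroup SL(2, ℝ)) (s : ℂ) (p q : Surf Γ) : ℂ :=
  ∑' γ : Γ, planeKernel s p.out (γ • q.out)

/-- `E` is the Eisenstein series `E_s(·, ξ)` with direction at infinity `θ = ξ` in the funnel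
covered by `g {Re z > 0}`: `E_s(p, ξ) = lim_{ρ → 0} ρ^(-s) R_X(s; p, (ρ, ξ))` for every `p ∈ X`. -/
def IsEisenstein (Γ : Subgroup SL(2, ℝ)) (g : SL(2, ℝ)) (s : ℂ) (ξ : ℝ) (E : Surf Γ → ℂ) : Prop :=
  ∀ p : Surf Γ,
    Tendsto (fun ρ : ℝ => (ρ : ℂ) ^ (-s) * resolventKernel Γ s p (funnelPoint Γ g ρ ξ))
      (𝓝[>] 0) (𝓝 (E p))

/-- The nodal set of a real function. -/
def nodalSet {X : Type} (F : X → ℝ) : Set X := {p | F p = 0}

/-- `D` is a compact nodal domain of `F`: a connected component of the complement of the nodal set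
whose closure is compact. -/
def IsCompactNodalDomain {X : Type} [TopologicalSpace X] (F : X → ℝ) (D : Set X) : Prop :=
  (∃ p ∈ (nodalSet F)ᶜ, D = connectedComponentIn (nodalSet F)ᶜ p) ∧ IsCompact (closure D)

/-- `C` is a compact connected component of the nodal set of `F`. -/
def IsCompactNodalComponent {X : Type} [TopologicalSpace X] (F : X → ℝ) (C : Set X) : Prop :=
  (∃ p ∈ nodalSet F, C = connectedComponentIn (nodalSet F) p) ∧ IsCompact C

end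

end Pool.Agent.helper18.Eis
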