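import Pool.Agent.helper18.Eis.Defs

set_option autoImplicit false

open scoped UpperHalfPlane MatrixGroups Topology
open Filter

namespace Pool.Agent.helper18.Eis

noncomputable section

lemma fermi_re (r θ : ℝ) : (fermi r θ).re = Real.exp θ * Real.tanh r := by
  change ((Real.exp θ : ℂ) * ((Real.tanh r : ℂ) + ((Real.cosh r)⁻¹ : ℝ) * Complex.I)).re = _
  rw [Complex.re_ofReal_mul, Complex.add_re, Complex.ofReal_re, Complex.mul_I_re,
    Complex.ofReal_im, neg_zero, add_zero]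

lemma fermi_im (r θ : ℝ) : (fermi r θ).im = Real.exp θ * (Real.cosh r)⁻¹ := by
  change ((Real.exp θ : ℂ) * ((Real.tanh r : ℂ) + ((Real.cosh r)⁻¹ : ℝ) * Complex.I)).im = _
  rw [Complex.im_ofReal_mul, Complex.add_im, Complex.ofReal_im, Complex.mul_I_im,
      Complex.ofReal_re, zero_add]

lemma tanh_pos_iff (r : ℝ) : 0 < Real.tanh r ↔ 0 < r := by
  rw [Real.tanh_eq_sinh_div_cosh, div_pos_iff_of_pos_right (Real.cosh_pos r), Real.sinh_pos_iff]

lemma fermi_re_pos (r θ : ℝ) : 0 < (fermi r θ).re ↔ 0 < r := by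
  rw [fermi_re, mul_pos_iff_of_pos_left (Real.exp_pos _), tanh_pos_iff]

/-- signed distance to the geodesic `(0, i∞)` -/
def rc (z : ℍ) : ℝ := Real.arsinh (z.re / z.im)

/-- foot point coordinate -/
def tc (z : ℍ) : ℝ := Real.log ‖(z : ℂ)‖

lemma rc_fermi (r θ : ℝ) : rc (fermi r θ) = r := by
  have h : (fermi r θ).re / (fermi r θ).im = Real.sinh r := by
    rw [fermi_re, fermi_im, Real.tanh_eq_sinh_div_cosh]
    have h1 := (Real.exp_pos θ).ne'
    have h2 := (Real.cosh_pos r).ne'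
    field_simp
  rw [rc, h, Real.arsinh_sinh]

lemma norm_sq_eq (z : ℍ) : ‖(z : ℂ)‖ ^ 2 = z.re ^ 2 + z.im ^ 2 := by
  rw [← Complex.normSq_eq_norm_sq, Complex.normSq_apply]
  simp only [UpperHalfPlane.coe_re, UpperHalfPlane.coe_im]
  ring

lemma norm_pos (z : ℍ) : 0 < ‖(z : ℂ)‖ := norm_pos_iff.mpr (UpperHalfPlane.ne_zero z)

lemma sinh_rc (z : ℍ) : Real.sinh (rc z) = z.re / z.im := Real.sinh_arsinh _

lemma cosh_rc (z : ℍ) : Real.cosh (rc z) = ‖(z : ℂ)‖ / z.im := by
  have hy := z.im_pos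
  have h1 : Real.cosh (rc z) ^ 2 = (‖(z : ℂ)‖ / z.im) ^ 2 := by
    rw [Real.cosh_sq, sinh_rc, div_pow, div_pow, norm_sq_eq]
    field_simp
  have h2 : 0 ≤ ‖(z : ℂ)‖ / z.im := by positivity
  exact (pow_left_inj₀ (Real.cosh_pos _).le h2 two_ne_zero).mp h1

lemma fermi_rc_tc (z : ℍ) : fermi (rc z) (tc z) = z := by
  have hy := z.im_pos
  have hn := norm_pos z
  apply UpperHalfPlane.ext_re_im
  · rw [fermi_re, Real.tanh_eq_sinh_div_cosh, sinh_rc, cosh_rc, tc, Real.exp_log hn]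
    field_simp
  · rw [fermi_im, cosh_rc, tc, Real.exp_log hn]
    field_simp

lemma cosh_dist_fermi (r θ r' θ' : ℝ) :
    Real.cosh (dist (fermi r θ) (fermi r' θ')) =
      Real.cosh r * Real.cosh r' * Real.cosh (θ - θ') - Real.sinh r * Real.sinh r' := by
  rw [UpperHalfPlane.cosh_dist, Complex.dist_eq, ← Complex.normSq_eq_norm_sq,
    Complex.normSq_apply]
  simp only [Complex.sub_re, Complex.sub_im, UpperHalfPlane.coe_re, UpperHalfPlane.coe_im,
    fermi_re, fermi_im, Real.tanh_eq_sinh_div_cosh]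
  have h1 := Real.cosh_sq r
  have h2 := Real.cosh_sq r'
  have hc := (Real.cosh_pos r).ne'
  have hc' := (Real.cosh_pos r').ne'
  have hE := (Real.exp_pos θ).ne'
  have hE' := (Real.exp_pos θ').ne'
  have hcd : Real.cosh (θ - θ') =
      (Real.exp θ / Real.exp θ' + Real.exp θ' / Real.exp θ) / 2 := by
    rw [Real.cosh_eq, neg_sub, Real.exp_sub, Real.exp_sub]
  rw [hcd]
  set c := Real.cosh r
  set c' := Real.cosh r'
  set s := Real.sinh r
  set s' := Real.sinh r'
  set E := Real.exp θ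
  set E' := Real.exp θ'
  field_simp
  have h1' : s ^ 2 = c ^ 2 - 1 := by linarith
  have h2' : s' ^ 2 = c' ^ 2 - 1 := by linarith
  ring_nf
  rw [h1', h2']
  ring

lemma dil_smul_fermi (ℓ r θ : ℝ) : dil ℓ • fermi r θ = fermi r (θ + ℓ) := by
  apply UpperHalfPlane.ext
  rw [UpperHalfPlane.coe_specialLinearGroup_apply]
  change ((Real.exp (ℓ / 2) : ℂ) * (fermi r θ : ℂ) + ((0 : ℝ) : ℂ)) /
    (((0 : ℝ) : ℂ) * (fermi r θ : ℂ) + (Real.exp (-(ℓ / 2)) : ℂ)) = _
  have h1 : (Real.exp (-(ℓ / 2)) : ℂ) ≠ 0 := by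
    rw [Complex.ofReal_ne_zero]; exact (Real.exp_pos _).ne'
  have h2 : (Real.exp (ℓ / 2) : ℂ) = Real.exp ℓ * Real.exp (-(ℓ / 2)) := by
    rw [← Complex.ofReal_mul, ← Real.exp_add]
    congr 2
    ring
  rw [Complex.ofReal_zero, zero_mul, zero_add, add_zero, h2]
  change Real.exp ℓ * Real.exp (-(ℓ / 2)) *
    ((Real.exp θ : ℂ) * ((Real.tanh r : ℂ) + ((Real.cosh r)⁻¹ : ℝ) * Complex.I)) /
      Real.exp (-(ℓ / 2)) =
    ((Real.exp (θ + ℓ) : ℂ) * ((Real.tanh r : ℂ) + ((Real.cosh r)⁻¹ : ℝ) * Complex.I))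
  rw [Real.exp_add, Complex.ofReal_mul]
  field_simp

lemma dil_zpow_smul_fermi (ℓ r θ : ℝ) (n : ℤ) :
    dil ℓ ^ n • fermi r θ = fermi r (θ + n * ℓ) := by
  induction n using Int.induction_on with
  | zero => simp
  | succ n ih =>
    rw [add_comm, zpow_add, zpow_one, mul_smul, ih, dil_smul_fermi]
    congr 1; push_cast; ring
  | pred n ih =>
    rw [sub_eq_neg_add, zpow_add, mul_smul, ih, zpow_neg, zpow_one, inv_smul_eq_iff,
      dil_smul_fermi]
    congr 1; push_cast; ring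

lemma rc_dil_zpow (ℓ : ℝ) (n : ℤ) (z : ℍ) : rc (dil ℓ ^ n • z) = rc z := by
  conv_lhs => rw [← fermi_rc_tc z, dil_zpow_smul_fermi, rc_fermi]

lemma rc_pos_iff (z : ℍ) : 0 < rc z ↔ 0 < z.re := by
  rw [rc, Real.arsinh_pos_iff, div_pos_iff_of_pos_right z.im_pos]

lemma abs_rc_sub_le (z w : ℍ) : |rc z - rc w| ≤ dist z w := by
  have h := cosh_dist_fermi (rc z) (tc z) (rc w) (tc w)
  rw [fermi_rc_tc, fermi_rc_tc] at h
  have h1 : Real.cosh (rc z - rc w) ≤ Real.cosh (dist z w) := by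
    rw [h, Real.cosh_sub]
    have h2 := Real.one_le_cosh (tc z - tc w)
    have h3 : 0 ≤ Real.cosh (rc z) * Real.cosh (rc w) := by
      have := Real.cosh_pos (rc z)
      have := Real.cosh_pos (rc w)
      positivity
    nlinarith [mul_le_mul_of_nonneg_left h2 h3]
  have h2 := Real.cosh_le_cosh.mp h1
  rwa [abs_of_nonneg (dist_nonneg : 0 ≤ dist z w)] at h2

lemma continuous_rc : Continuous rc := by
  have h : LipschitzWith 1 rc := by
    apply LipschitzWith.of_dist_le_mul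
    intro z w
    rw [NNReal.coe_one, one_mul, Real.dist_eq]
    exact abs_rc_sub_le z w
  exact h.continuous

lemma continuous_fermi : Continuous fun q : ℝ × ℝ => fermi q.1 q.2 := by
  rw [UpperHalfPlane.isEmbedding_coe.continuous_iff]
  change Continuous fun q : ℝ × ℝ =>
    ((Real.exp q.2 : ℂ) * ((Real.tanh q.1 : ℂ) + ((Real.cosh q.1)⁻¹ : ℝ) * Complex.I))
  have h1 : Continuous fun x : ℝ => Real.tanh x := by
    simp only [Real.tanh_eq_sinh_div_cosh]
    exact Real.continuous_sinh.div Real.continuous_cosh fun x => (Real.cosh_pos x).ne'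
  have h2 : Continuous fun x : ℝ => (Real.cosh x)⁻¹ :=
    Real.continuous_cosh.inv₀ fun x => (Real.cosh_pos x).ne'
  exact (Complex.continuous_ofReal.comp (Real.continuous_exp.comp continuous_snd)).mul
    ((Complex.continuous_ofReal.comp (h1.comp continuous_fst)).add
      ((Complex.continuous_ofReal.comp (h2.comp continuous_fst)).mul continuous_const))

end

end Pool.Agent.helper18.Eis
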