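import Pool.Agent.helper18.Eis.Geometry

set_option autoImplicit false

open scoped UpperHalfPlane MatrixGroups Topology
open Filter

namespace Pool.Agent.helper18.Eis

noncomputable section

/-- limit of `ρ sinh² (d(hζ, ω_ρ) / 2)` as `ω_ρ` tends to the boundary point `η` -/
def Kf (h : SL(2, ℝ)) (η : ℝ) (ζ : ℍ) : ℝ :=
  Complex.normSq (((h 0 0 - h 1 0 * η : ℝ) : ℂ) * ζ + ((h 0 1 - h 1 1 * η : ℝ) : ℂ)) /
    (4 * η * ζ.im)

lemma denom_ne (h : SL(2, ℝ)) (ζ : ℍ) : (h 1 0 : ℂ) * ζ + (h 1 1 : ℂ) ≠ 0 := by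
  have hdet : h 0 0 * h 1 1 - h 0 1 * h 1 0 = 1 := by
    have := h.2
    rwa [Matrix.det_fin_two] at this
  intro h0
  have him := congrArg Complex.im h0
  have hre := congrArg Complex.re h0
  simp at him hre
  have hy := ζ.im_pos.ne'
  rcases him with h1 | h1
  · rw [h1] at hre hdet
    simp at hre
    rw [hre] at hdet
    simp at hdet
  · exact hy h1

lemma coe_smul' (h : SL(2, ℝ)) (ζ : ℍ) : ((h • ζ : ℍ) : ℂ) =
    ((h 0 0 : ℂ) * ζ + (h 0 1 : ℂ)) / ((h 1 0 : ℂ) * ζ + (h 1 1 : ℂ)) :=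
  UpperHalfPlane.coe_specialLinearGroup_apply h ζ

lemma im_smul' (h : SL(2, ℝ)) (ζ : ℍ) : (h • ζ : ℍ).im =
    ζ.im / Complex.normSq ((h 1 0 : ℂ) * ζ + (h 1 1 : ℂ)) := by
  have hdet : h 0 0 * h 1 1 - h 0 1 * h 1 0 = 1 := by
    have := h.2
    rwa [Matrix.det_fin_two] at this
  have hN := (Complex.normSq_pos.mpr (denom_ne h ζ)).ne'
  rw [← UpperHalfPlane.coe_im, coe_smul', Complex.div_im]
  simp only [Complex.add_im, Complex.mul_im, Complex.ofReal_re, Complex.ofReal_im, zero_mul,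
    add_zero, Complex.add_re, Complex.mul_re, sub_zero, UpperHalfPlane.coe_re,
    UpperHalfPlane.coe_im]
  rw [← sub_div]
  congr 1
  linear_combination ζ.im * hdet

lemma sinh_half_sq (z w : ℍ) : Real.sinh (dist z w / 2) ^ 2 =
    Complex.normSq ((z : ℂ) - w) / (4 * z.im * w.im) := by
  rw [UpperHalfPlane.sinh_half_dist, div_pow, mul_pow, Real.sq_sqrt
    (mul_pos z.im_pos w.im_pos).le, Complex.dist_eq, ← Complex.normSq_eq_norm_sq]
  congr 1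
  ring

lemma sinh_half_sq_smul (h : SL(2, ℝ)) (ζ w : ℍ) : Real.sinh (dist (h • ζ) w / 2) ^ 2 =
    Complex.normSq ((h 0 0 : ℂ) * ζ + (h 0 1 : ℂ) - w * ((h 1 0 : ℂ) * ζ + (h 1 1 : ℂ))) /
      (4 * ζ.im * w.im) := by
  have hd := denom_ne h ζ
  have hN := (Complex.normSq_pos.mpr hd).ne'
  have hy := ζ.im_pos.ne'
  have hw := w.im_pos.ne'
  rw [sinh_half_sq, im_smul', coe_smul']
  rw [div_sub' hd, map_div₀]
  rw [mul_comm ((h 1 0 : ℂ) * ζ + (h 1 1 : ℂ)) (w : ℂ)]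
  generalize Complex.normSq ((h 0 0 : ℂ) * ζ + (h 0 1 : ℂ) -
    w * ((h 1 0 : ℂ) * ζ + (h 1 1 : ℂ))) = M
  generalize Complex.normSq ((h 1 0 : ℂ) * ζ + (h 1 1 : ℂ)) = N at *
  field_simp

lemma cosh_log (ρ : ℝ) (hρ : 0 < ρ) : Real.cosh (Real.log (2 / ρ)) = (4 + ρ ^ 2) / (4 * ρ) := by
  have h : 0 < 2 / ρ := by positivity
  rw [Real.cosh_eq, Real.exp_neg, Real.exp_log h]
  field_simp
  ring

lemma sinh_log (ρ : ℝ) (hρ : 0 < ρ) : Real.sinh (Real.log (2 / ρ)) = (4 - ρ ^ 2) / (4 * ρ) := by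
  have h : 0 < 2 / ρ := by positivity
  rw [Real.sinh_eq, Real.exp_neg, Real.exp_log h]
  field_simp
  ring

lemma tendsto_omega (ξ : ℝ) :
    Tendsto (fun ρ : ℝ => ((fermi (Real.log (2 / ρ)) ξ : ℍ) : ℂ)) (𝓝[>] 0)
      (𝓝 ((Real.exp ξ : ℝ) : ℂ)) := by
  have h1 : (fun ρ : ℝ => ((fermi (Real.log (2 / ρ)) ξ : ℍ) : ℂ)) =ᶠ[𝓝[>] 0]
      fun ρ : ℝ => (Real.exp ξ : ℂ) * (((4 - ρ ^ 2) / (4 + ρ ^ 2) : ℝ) +
        ((4 * ρ / (4 + ρ ^ 2) : ℝ) : ℂ) * Complex.I) := by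
    filter_upwards [self_mem_nhdsWithin] with ρ hρ
    have hρ' : 0 < ρ := hρ
    change (Real.exp ξ : ℂ) * ((Real.tanh (Real.log (2 / ρ)) : ℂ) +
      ((Real.cosh (Real.log (2 / ρ)))⁻¹ : ℝ) * Complex.I) = _
    rw [Real.tanh_eq_sinh_div_cosh, sinh_log ρ hρ', cosh_log ρ hρ']
    have e1 : (4 - ρ ^ 2) / (4 * ρ) / ((4 + ρ ^ 2) / (4 * ρ)) = (4 - ρ ^ 2) / (4 + ρ ^ 2) := by
      field_simp
    have e2 : ((4 + ρ ^ 2) / (4 * ρ))⁻¹ = 4 * ρ / (4 + ρ ^ 2) := by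
      rw [inv_div]
    rw [e1, e2]
  refine Tendsto.congr' h1.symm ?_
  have h2 : ContinuousAt (fun ρ : ℝ => (Real.exp ξ : ℂ) * (((4 - ρ ^ 2) / (4 + ρ ^ 2) : ℝ) +
        ((4 * ρ / (4 + ρ ^ 2) : ℝ) : ℂ) * Complex.I)) 0 := by
    have a1 : ContinuousAt (fun ρ : ℝ => (4 - ρ ^ 2) / (4 + ρ ^ 2)) 0 := by
      apply ContinuousAt.div <;> first | fun_prop | norm_num
    have a2 : ContinuousAt (fun ρ : ℝ => 4 * ρ / (4 + ρ ^ 2)) 0 := by
      apply ContinuousAt.div <;> first | fun_prop | norm_num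
    exact continuousAt_const.mul ((Complex.continuous_ofReal.continuousAt.comp a1).add
      ((Complex.continuous_ofReal.continuousAt.comp a2).mul continuousAt_const))
  have h3 := h2.tendsto
  simp only [ne_eq, OfNat.ofNat_ne_zero, not_false_eq_true, zero_pow, sub_zero, add_zero,
    mul_zero, zero_div, Complex.ofReal_zero, zero_mul] at h3
  rw [div_self (by norm_num : (4 : ℝ) ≠ 0), Complex.ofReal_one, mul_one] at h3
  exact h3.mono_left nhdsWithin_le_nhds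

lemma tendsto_rho_sinh (h : SL(2, ℝ)) (ξ : ℝ) (ζ : ℍ) :
    Tendsto (fun ρ : ℝ => ρ * Real.sinh (dist (h • ζ) (fermi (Real.log (2 / ρ)) ξ) / 2) ^ 2)
      (𝓝[>] 0) (𝓝 (Kf h (Real.exp ξ) ζ)) := by
  have hE := (Real.exp_pos ξ).ne'
  have hy := ζ.im_pos.ne'
  have h1 : (fun ρ : ℝ => ρ * Real.sinh (dist (h • ζ) (fermi (Real.log (2 / ρ)) ξ) / 2) ^ 2)
      =ᶠ[𝓝[>] 0] fun ρ : ℝ => Complex.normSq ((h 0 0 : ℂ) * ζ + (h 0 1 : ℂ) -
        ((fermi (Real.log (2 / ρ)) ξ : ℍ) : ℂ) * ((h 1 0 : ℂ) * ζ + (h 1 1 : ℂ))) *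
          ((4 + ρ ^ 2) / (16 * Real.exp ξ * ζ.im)) := by
    filter_upwards [self_mem_nhdsWithin] with ρ hρ
    have hρ' : 0 < ρ := hρ
    rw [sinh_half_sq_smul, fermi_im, cosh_log ρ hρ']
    have : (4 + ρ ^ 2 : ℝ) ≠ 0 := by positivity
    field_simp
    ring
  refine Tendsto.congr' h1.symm ?_
  have h2 : Tendsto (fun ρ : ℝ => ((4 + ρ ^ 2) / (16 * Real.exp ξ * ζ.im))) (𝓝[>] 0)
      (𝓝 ((4 + 0 ^ 2) / (16 * Real.exp ξ * ζ.im))) := by
    have : ContinuousAt (fun ρ : ℝ => ((4 + ρ ^ 2) / (16 * Real.exp ξ * ζ.im))) 0 := by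
      fun_prop
    exact this.tendsto.mono_left nhdsWithin_le_nhds
  have h3 : Tendsto (fun ρ : ℝ => Complex.normSq ((h 0 0 : ℂ) * ζ + (h 0 1 : ℂ) -
        ((fermi (Real.log (2 / ρ)) ξ : ℍ) : ℂ) * ((h 1 0 : ℂ) * ζ + (h 1 1 : ℂ)))) (𝓝[>] 0)
      (𝓝 (Complex.normSq ((h 0 0 : ℂ) * ζ + (h 0 1 : ℂ) -
        ((Real.exp ξ : ℝ) : ℂ) * ((h 1 0 : ℂ) * ζ + (h 1 1 : ℂ))))) :=
    (Complex.continuous_normSq.tendsto _).comp
      (tendsto_const_nhds.sub ((tendsto_omega ξ).mul tendsto_const_nhds))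
  have h4 := h3.mul h2
  have h5 : Complex.normSq ((h 0 0 : ℂ) * ζ + (h 0 1 : ℂ) -
        ((Real.exp ξ : ℝ) : ℂ) * ((h 1 0 : ℂ) * ζ + (h 1 1 : ℂ))) *
          ((4 + 0 ^ 2) / (16 * Real.exp ξ * ζ.im)) = Kf h (Real.exp ξ) ζ := by
    rw [Kf]
    have e : (h 0 0 : ℂ) * ζ + (h 0 1 : ℂ) -
        ((Real.exp ξ : ℝ) : ℂ) * ((h 1 0 : ℂ) * ζ + (h 1 1 : ℂ)) =
        (((h 0 0 - h 1 0 * Real.exp ξ : ℝ) : ℂ) * ζ + ((h 0 1 - h 1 1 * Real.exp ξ : ℝ) : ℂ)) := by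
      rw [Complex.ofReal_sub, Complex.ofReal_sub, Complex.ofReal_mul, Complex.ofReal_mul]
      ring
    rw [e]
    field_simp
    ring
  rw [h5] at h4
  exact h4

lemma sinh_half_sq_eq (d : ℝ) : Real.sinh (d / 2) ^ 2 = (Real.cosh d - 1) / 2 := by
  have h : Real.cosh d = Real.cosh (2 * (d / 2)) := by congr 1; ring
  rw [h, Real.cosh_two_mul, Real.cosh_sq]
  ring

/-- uniform lower bound -/
lemma rho_sinh_ge (z : ℍ) (ξ R ρ : ℝ) (hR : 0 ≤ R) (hz : rc z ≤ R) (hρ : 0 < ρ)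
    (hρ2 : ρ ≤ Real.exp (-(2 * R)) / 2) :
    Real.exp (-(2 * R)) / 4 * Real.cosh (dist z (fermi 0 ξ)) ≤
      ρ * Real.sinh (dist z (fermi (Real.log (2 / ρ)) ξ) / 2) ^ 2 := by
  have hd := cosh_dist_fermi (rc z) (tc z) (Real.log (2 / ρ)) ξ
  have hd0 := cosh_dist_fermi (rc z) (tc z) 0 ξ
  rw [fermi_rc_tc] at hd hd0
  rw [Real.cosh_zero, Real.sinh_zero, mul_one, mul_zero, sub_zero] at hd0
  have he1 : Real.exp (-(2 * R)) ≤ 1 := by
    rw [Real.exp_le_one_iff]; linarith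
  have hρ1 : ρ ≤ 1 / 2 := by linarith
  rw [sinh_half_sq_eq]
  set d := dist z (fermi (Real.log (2 / ρ)) ξ)
  set d0 := dist z (fermi 0 ξ)
  set φ := tc z - ξ
  have hcr : Real.cosh (Real.log (2 / ρ)) = (4 + ρ ^ 2) / (4 * ρ) := cosh_log ρ hρ
  have hsr : Real.sinh (Real.log (2 / ρ)) = (4 - ρ ^ 2) / (4 * ρ) := sinh_log ρ hρ
  have hsr0 : 0 ≤ Real.sinh (Real.log (2 / ρ)) := by
    rw [hsr]
    apply div_nonneg _ (by positivity)
    nlinarith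
  have hsc : Real.sinh (Real.log (2 / ρ)) ≤ Real.cosh (Real.log (2 / ρ)) :=
    (Real.sinh_lt_cosh _).le
  have hcr1 : 1 / ρ ≤ Real.cosh (Real.log (2 / ρ)) := by
    rw [hcr, div_le_div_iff₀ hρ (by positivity)]
    nlinarith
  set c' := Real.cosh (Real.log (2 / ρ))
  set s' := Real.sinh (Real.log (2 / ρ))
  have hφ := Real.one_le_cosh φ
  have hc := Real.one_le_cosh (rc z)
  have hc'pos : 0 < c' := Real.cosh_pos _
  have hd0pos : 1 ≤ Real.cosh d0 := Real.one_le_cosh _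
  have key : c' * (Real.exp (-(2 * R)) * Real.cosh d0) ≤ Real.cosh d := by
    rw [hd, hd0]
    rcases le_or_gt (rc z) 0 with hr | hr
    · have hs : Real.sinh (rc z) ≤ 0 := Real.sinh_nonpos_iff.mpr hr
      have e1 : 0 ≤ -(Real.sinh (rc z) * s') := by nlinarith
      have e2 : c' * (Real.exp (-(2 * R)) * (Real.cosh (rc z) * Real.cosh φ)) ≤
          c' * (1 * (Real.cosh (rc z) * Real.cosh φ)) := by
        apply mul_le_mul_of_nonneg_left _ hc'pos.le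
        apply mul_le_mul_of_nonneg_right he1
        positivity
      nlinarith
    · have hs : 0 < Real.sinh (rc z) := Real.sinh_pos_iff.mpr hr
      have e1 : Real.sinh (rc z) * s' ≤ Real.sinh (rc z) * (c' * Real.cosh φ) := by
        apply mul_le_mul_of_nonneg_left _ hs.le
        calc s' ≤ c' * 1 := by linarith
          _ ≤ c' * Real.cosh φ := mul_le_mul_of_nonneg_left hφ hc'pos.le
      have e2 : Real.cosh (rc z) - Real.sinh (rc z) = Real.exp (-(rc z)) := by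
        rw [Real.cosh_eq, Real.sinh_eq]; ring
      have e3 : Real.cosh (rc z) ≤ Real.exp (rc z) := by
        rw [Real.cosh_eq]
        have : Real.exp (-rc z) ≤ Real.exp (rc z) := Real.exp_le_exp.mpr (by linarith)
        linarith
      have e4 : Real.exp (-(2 * R)) * Real.cosh (rc z) ≤ Real.exp (-(rc z)) := by
        calc Real.exp (-(2 * R)) * Real.cosh (rc z)
            ≤ Real.exp (-(2 * R)) * Real.exp (rc z) :=
              mul_le_mul_of_nonneg_left e3 (Real.exp_pos _).le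
          _ = Real.exp (-(2 * R) + rc z) := (Real.exp_add _ _).symm
          _ ≤ Real.exp (-(rc z)) := Real.exp_le_exp.mpr (by linarith)
      have e5 : 0 ≤ c' * Real.cosh φ := by positivity
      nlinarith [mul_le_mul_of_nonneg_left e4 e5]
  have key2 : 1 / ρ * (Real.exp (-(2 * R)) * Real.cosh d0) ≤ Real.cosh d := by
    refine le_trans ?_ key
    apply mul_le_mul_of_nonneg_right hcr1
    positivity
  have h2 : 2 ≤ Real.cosh d := by
    refine le_trans ?_ key2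
    rw [one_div, inv_mul_eq_div, le_div_iff₀ hρ]
    nlinarith [Real.exp_pos (-(2 * R))]
  have h3 : Real.exp (-(2 * R)) * Real.cosh d0 ≤ ρ * Real.cosh d := by
    have := mul_le_mul_of_nonneg_left key2 hρ.le
    rwa [← mul_assoc, mul_one_div_cancel hρ.ne', one_mul] at this
  nlinarith

end

end Pool.Agent.helper18.Eis
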