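import Pool.Agent.helper18.Eis.Kernel

set_option autoImplicit false

open scoped UpperHalfPlane MatrixGroups Topology
open Filter MeasureTheory

namespace Pool.Agent.helper18.Eis

noncomputable section

/-- the radial form of the plane kernel -/
def Gk (s : ℂ) (u : ℝ) : ℂ :=
  1 / (4 * (Real.pi : ℂ)) * ∫ t in (0 : ℝ)..1,
    (t : ℂ) ^ (s - 1) * (1 - (t : ℂ)) ^ (s - 1) * ((t + u : ℝ) : ℂ) ^ (-s)

lemma planeKernel_eq (s : ℂ) (z w : ℍ) :
    planeKernel s z w = Gk s (Real.sinh (dist z w / 2) ^ 2) := rfl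

/-- the beta density -/
def bd (s : ℂ) (t : ℝ) : ℝ := ‖(t : ℂ) ^ (s - 1) * (1 - (t : ℂ)) ^ (s - 1)‖

lemma bd_int (s : ℂ) (hs : 0 < s.re) : IntervalIntegrable (bd s) volume 0 1 :=
  (Complex.betaIntegral_convergent hs hs).norm

lemma scale_eq (s : ℂ) (ρ x : ℝ) (hρ : 0 < ρ) (hx : 0 ≤ x) :
    (ρ : ℂ) ^ (-s) * (x : ℂ) ^ (-s) = ((ρ * x : ℝ) : ℂ) ^ (-s) := by
  rw [Complex.ofReal_mul, Complex.mul_cpow_ofReal_nonneg hρ.le hx]

lemma scaled_Gk (s : ℂ) (ρ u : ℝ) (hρ : 0 < ρ) (hu : 0 ≤ u) :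
    (ρ : ℂ) ^ (-s) * Gk s u = 1 / (4 * (Real.pi : ℂ)) * ∫ t in (0 : ℝ)..1,
      (t : ℂ) ^ (s - 1) * (1 - (t : ℂ)) ^ (s - 1) * ((ρ * (t + u) : ℝ) : ℂ) ^ (-s) := by
  rw [Gk, mul_left_comm, ← intervalIntegral.integral_const_mul]
  congr 1
  apply intervalIntegral.integral_congr
  intro t ht
  rw [Set.uIcc_of_le zero_le_one] at ht
  have h : 0 ≤ t + u := add_nonneg ht.1 hu
  simp only
  rw [← scale_eq s ρ (t + u) hρ h]
  ring

/-- the constant in the bound -/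
def Cb (s : ℂ) : ℝ := 1 / (4 * Real.pi) * ∫ t in (0 : ℝ)..1, bd s t

lemma Cb_nonneg (s : ℂ) : 0 ≤ Cb s := by
  apply mul_nonneg (by positivity)
  apply intervalIntegral.integral_nonneg zero_le_one
  intro t _
  exact norm_nonneg _

lemma norm_cpow_neg (s : ℂ) (x : ℝ) (hx : 0 < x) : ‖(x : ℂ) ^ (-s)‖ = x ^ (-s.re) := by
  rw [Complex.norm_cpow_eq_rpow_re_of_pos hx, Complex.neg_re]

lemma norm_scaled_le (s : ℂ) (hs : 0 < s.re) (ρ u : ℝ) (hρ : 0 < ρ) (hu : 0 < u) :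
    ‖(ρ : ℂ) ^ (-s) * Gk s u‖ ≤ Cb s * (ρ * u) ^ (-s.re) := by
  rw [scaled_Gk s ρ u hρ hu.le, norm_mul]
  have h1 : ‖1 / (4 * (Real.pi : ℂ))‖ = 1 / (4 * Real.pi) := by
    rw [norm_div, norm_one, norm_mul, Complex.norm_real, Real.norm_eq_abs,
      abs_of_pos Real.pi_pos]
    norm_num
  rw [h1, Cb, mul_assoc]
  apply mul_le_mul_of_nonneg_left _ (by positivity)
  rw [← intervalIntegral.integral_mul_const]
  apply intervalIntegral.norm_integral_le_of_norm_le zero_le_one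
  · refine Filter.Eventually.of_forall fun t ht => ?_
    have ht0 : 0 < t := ht.1
    rw [norm_mul, norm_cpow_neg s _ (by positivity)]
    apply mul_le_mul_of_nonneg_left _ (norm_nonneg _)
    apply Real.rpow_le_rpow_of_nonpos (by positivity)
    · apply mul_le_mul_of_nonneg_left _ hρ.le
      linarith
    · linarith
  · exact (bd_int s hs).mul_const _

lemma tendsto_scaled (s : ℂ) (hs : 0 < s.re) (u : ℝ → ℝ) (K : ℝ) (hK : 0 < K)
    (hu : ∀ᶠ ρ in 𝓝[>] (0 : ℝ), 0 < u ρ)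
    (h : Tendsto (fun ρ : ℝ => ρ * u ρ) (𝓝[>] 0) (𝓝 K)) :
    Tendsto (fun ρ : ℝ => (ρ : ℂ) ^ (-s) * Gk s (u ρ)) (𝓝[>] 0)
      (𝓝 (1 / (4 * (Real.pi : ℂ)) * (Complex.betaIntegral s s * (K : ℂ) ^ (-s)))) := by
  have h0 : (fun ρ : ℝ => (ρ : ℂ) ^ (-s) * Gk s (u ρ)) =ᶠ[𝓝[>] 0] fun ρ : ℝ =>
      1 / (4 * (Real.pi : ℂ)) * ∫ t in (0 : ℝ)..1,
      (t : ℂ) ^ (s - 1) * (1 - (t : ℂ)) ^ (s - 1) * ((ρ * (t + u ρ) : ℝ) : ℂ) ^ (-s) := by
    filter_upwards [self_mem_nhdsWithin, hu] with ρ hρ hu'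
    exact scaled_Gk s ρ (u ρ) hρ hu'.le
  refine Tendsto.congr' h0.symm ?_
  apply Tendsto.const_mul
  have h2 : Complex.betaIntegral s s * (K : ℂ) ^ (-s) = ∫ t in (0 : ℝ)..1,
      (t : ℂ) ^ (s - 1) * (1 - (t : ℂ)) ^ (s - 1) * (K : ℂ) ^ (-s) := by
    rw [intervalIntegral.integral_mul_const]
    rfl
  rw [h2]
  apply intervalIntegral.tendsto_integral_filter_of_dominated_convergence
    (fun t => bd s t * (K / 2) ^ (-s.re))
  · refine Filter.Eventually.of_forall fun ρ => ?_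
    apply Measurable.aestronglyMeasurable
    fun_prop
  · filter_upwards [self_mem_nhdsWithin, hu, h.eventually (lt_mem_nhds (half_lt_self hK))]
      with ρ hρ hu' hK'
    have hρ' : (0 : ℝ) < ρ := hρ
    refine Filter.Eventually.of_forall fun t ht => ?_
    rw [Set.uIoc_of_le zero_le_one] at ht
    have ht0 : 0 < t := ht.1
    rw [norm_mul, norm_cpow_neg s _ (by positivity)]
    apply mul_le_mul_of_nonneg_left _ (norm_nonneg _)
    apply Real.rpow_le_rpow_of_nonpos (by positivity)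
    · have : ρ * (t + u ρ) = ρ * t + ρ * u ρ := by ring
      rw [this]
      have : 0 ≤ ρ * t := by positivity
      linarith
    · linarith
  · exact (bd_int s hs).mul_const _
  · refine Filter.Eventually.of_forall fun t ht => ?_
    apply Tendsto.const_mul
    have h3 : Tendsto (fun ρ : ℝ => ρ * (t + u ρ)) (𝓝[>] 0) (𝓝 K) := by
      have h4 : Tendsto (fun ρ : ℝ => ρ * t + ρ * u ρ) (𝓝[>] 0) (𝓝 (0 * t + K)) :=
        ((tendsto_nhdsWithin_of_tendsto_nhds tendsto_id).mul_const t).add h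
      rw [zero_mul, zero_add] at h4
      refine h4.congr fun ρ => ?_
      ring
    have h5 : ContinuousAt (fun x : ℂ => x ^ (-s)) (K : ℂ) :=
      continuousAt_cpow_const (Complex.ofReal_mem_slitPlane.mpr hK)
    exact h5.tendsto.comp ((Complex.continuous_ofReal.tendsto K).comp h3)

lemma beta_ne_zero (s : ℂ) (hs : 0 < s.re) : Complex.betaIntegral s s ≠ 0 := by
  intro h
  have h1 := Complex.Gamma_mul_Gamma_eq_betaIntegral hs hs
  rw [h, mul_zero] at h1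
  have h2 := Complex.Gamma_ne_zero_of_re_pos hs
  exact (mul_ne_zero h2 h2) h1

end

end Pool.Agent.helper18.Eis
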