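import Pool.Agent.helper18.Eis.Nodal

set_option autoImplicit false

open scoped UpperHalfPlane MatrixGroups Topology
open Filter MeasureTheory

namespace Pool.Agent.helper18.Eis

noncomputable section

variable {Γ : Subgroup SL(2, ℝ)}

lemma exists_shift {g : SL(2, ℝ)} {ℓ : ℝ} (hf : IsFunnel Γ g ℓ) (ζ : ℍ) :
    ∃ θ : ℝ, |θ| ≤ ℓ ∧ proj Γ (g • fermi (rc ζ) θ) = proj Γ (g • ζ) := by
  have hℓ := hf.1
  set n : ℤ := -⌊tc ζ / ℓ⌋ with hn
  have h1 : 0 ≤ tc ζ + n * ℓ := by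
    have := Int.floor_le (tc ζ / ℓ)
    rw [le_div_iff₀ hℓ] at this
    simp only [hn]; push_cast; linarith
  have h2 : tc ζ + n * ℓ ≤ ℓ := by
    have := Int.lt_floor_add_one (tc ζ / ℓ)
    rw [div_lt_iff₀ hℓ] at this
    simp only [hn]; push_cast; linarith
  refine ⟨tc ζ + n * ℓ, by rwa [abs_of_nonneg h1], ?_⟩
  rw [← dil_zpow_smul_fermi, fermi_rc_tc, proj_eq_iff]
  have hmem : g * dil ℓ ^ n * g⁻¹ ∈ Γ := by
    have : g * dil ℓ ^ n * g⁻¹ = (g * dil ℓ * g⁻¹) ^ n := by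
      rw [conj_zpow]
    rw [this]
    exact Γ.zpow_mem hf.2.1 n
  refine ⟨⟨_, hmem⟩, ?_⟩
  change (g * dil ℓ ^ n * g⁻¹) • g • ζ = g • dil ℓ ^ n • ζ
  rw [mul_smul, mul_smul, inv_smul_smul]

/-- the Eisenstein series -/
def EisS (Γ : Subgroup SL(2, ℝ)) (g₁ : SL(2, ℝ)) (s : ℂ) (ξ : ℝ) (p : Surf Γ) : ℂ :=
  ∑' γ : Γ, 1 / (4 * (Real.pi : ℂ)) * (Complex.betaIntegral s s *
        (Kf (hm g₁ 1 γ) (Real.exp ξ) p.out : ℂ) ^ (-s))

lemma isEisenstein_EisS (hΓ : ExponentLtHalf Γ) {g₁ : SL(2, ℝ)} {ℓ₁ : ℝ}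
    (hf : IsFunnel Γ g₁ ℓ₁) (s : ℂ) (hs : s.re = 1 / 2) (ξ : ℝ) :
    IsEisenstein Γ g₁ s ξ (EisS Γ g₁ s ξ) := by
  intro p
  have h := eis_tendsto hΓ hf 1 s hs ξ p.out
  rw [one_smul] at h
  have hp : proj Γ p.out = p := Quotient.out_eq p
  rw [hp] at h
  exact h

theorem main (hΓ : ExponentLtHalf Γ) {g₁ g₂ : SL(2, ℝ)} {ℓ₁ ℓ₂ : ℝ} (hf₁ : IsFunnel Γ g₁ ℓ₁)
    (hf₂ : IsFunnel Γ g₂ ℓ₂) (hd : DisjointFunnels Γ g₁ g₂) (ξ : ℝ) :
    ∃ lam₀ : ℝ, 0 < lam₀ ∧ ∀ lam : ℝ, lam ≠ 0 → |lam| < lam₀ →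
      ∃ E : Surf Γ → ℂ, IsEisenstein Γ g₁ (1 / 2 + lam * Complex.I) ξ E ∧
        {D | IsCompactNodalDomain (fun p => (E p).re) D}.Infinite ∧
        ∀ K : Set (Surf Γ), IsCompact K →
          ∃ C, IsCompactNodalComponent (fun p => (E p).re) C ∧ Disjoint C K := by
  obtain ⟨lam₀, h0, hS⟩ := Sf_re_pos hΓ hf₁ hd ξ ℓ₂
  refine ⟨lam₀, h0, fun lam hlam hlt => ?_⟩
  refine ⟨EisS Γ g₁ (sp lam) ξ, isEisenstein_EisS hΓ hf₁ _ (sp_re lam) ξ, ?_⟩
  set F : Surf Γ → ℝ := fun p => (EisS Γ g₁ (sp lam) ξ p).re with hF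
  have hval : ∀ x θ : ℝ, F (proj Γ (g₂ • fermi x θ)) = Ff Γ g₁ g₂ ξ lam x θ := by
    intro x θ
    have h1 := isEisenstein_EisS hΓ hf₁ (sp lam) (sp_re lam) ξ (proj Γ (g₂ • fermi x θ))
    have h2 := eis_tendsto hΓ hf₁ g₂ (sp lam) (sp_re lam) ξ (fermi x θ)
    rw [series_eq hd] at h2
    have h3 := tendsto_nhds_unique h1 h2
    simp only [hF]
    rw [h3, Ff]
  have hcont : Continuous F := by
    have h1 : Continuous fun z : ℍ => F (proj Γ z) := by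
      have h2 : (fun z : ℍ => F (proj Γ z)) =
          (fun q : ℝ × ℝ => Ff Γ g₁ g₂ ξ lam q.1 q.2) ∘
            (fun z : ℍ => (rc (g₂⁻¹ • z), tc (g₂⁻¹ • z))) := by
        funext z
        rw [Function.comp_apply, ← hval, fermi_rc_tc, smul_inv_smul]
      rw [h2]
      apply (continuous_Ff hΓ hf₁ hd ξ lam).comp
      have htc : Continuous tc := by
        unfold tc
        exact Real.continuousOn_log.comp_continuous
          (continuous_norm.comp UpperHalfPlane.continuous_coe) (fun z => (norm_pos z).ne')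
      exact (continuous_rc.comp (continuous_const_smul _)).prodMk
        (htc.comp (continuous_const_smul _))
    exact (isQuotientMap_quotient_mk' (s := MulAction.orbitRel Γ ℍ)).continuous_iff.mpr h1
  -- the radii
  have hstep : 0 < Real.pi / |lam| := div_pos Real.pi_pos (abs_pos.mpr hlam)
  have hmono : StrictMono (xk ξ lam) := by
    intro i j hij
    have : (i : ℝ) < j := by exact_mod_cast hij
    simp only [xk]
    nlinarith
  have htop : Tendsto (xk ξ lam) atTop atTop := by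
    unfold xk
    apply tendsto_atTop_add_const_left
    exact tendsto_natCast_atTop_atTop.atTop_mul_const hstep
  obtain ⟨m, hm⟩ := (htop.eventually_gt_atTop 0).exists_forall_of_atTop
  have hmono' : StrictMono fun k => xk ξ lam (2 * m + k) := fun i j hij => hmono (by omega)
  have htop' : Tendsto (fun k => xk ξ lam (2 * m + k)) atTop atTop :=
    htop.comp (tendsto_atTop_mono (fun k => by simp only [id]; omega) tendsto_id)
  apply nodal_of_signs hf₂ hcont (fun k => xk ξ lam (2 * m + k)) hmono'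
    (hm (2 * m + 0) (by omega)) htop'
  intro k ζ hζ
  obtain ⟨θ, hθ, hp⟩ := exists_shift hf₂ ζ
  rw [← hp, hval, hζ, Ff_xk ξ lam hlam]
  have h1 : 0 < (Sf Γ g₁ g₂ ξ lam (xk ξ lam (2 * m + k)) θ).re :=
    hS lam hlt _ θ (hm _ (by omega)).le hθ
  have h2 : 0 < ‖Ac ξ lam‖ := norm_pos_iff.mpr (Ac_ne_zero ξ lam)
  have h3 : (-1 : ℝ) ^ k * (-1) ^ (2 * m + k) = 1 := by
    rw [← pow_add, show k + (2 * m + k) = 2 * (m + k) by ring, pow_mul]
    norm_num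
  rw [← mul_assoc, h3, one_mul]
  have h4 := Real.exp_pos (-(xk ξ lam (2 * m + k) / 2))
  positivity

end

end Pool.Agent.helper18.Eis
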