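import Pool.Agent.helper18.Eis.Sign

set_option autoImplicit false

open scoped UpperHalfPlane MatrixGroups Topology
open Filter MeasureTheory

namespace Pool.Agent.helper18.Eis

noncomputable section

variable {Γ : Subgroup SL(2, ℝ)}

/-- the part of the funnel at distance more than `a` -/
def Uset (Γ : Subgroup SL(2, ℝ)) (g : SL(2, ℝ)) (a : ℝ) : Set (Surf Γ) :=
  {p | ∃ ζ : ℍ, a < rc ζ ∧ proj Γ (g • ζ) = p}

/-- the part of the funnel at distance at least `a` -/
def Cset (Γ : Subgroup SL(2, ℝ)) (g : SL(2, ℝ)) (a : ℝ) : Set (Surf Γ) :=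
  {p | ∃ ζ : ℍ, a ≤ rc ζ ∧ proj Γ (g • ζ) = p}

lemma isOpenMap_proj : IsOpenMap (proj Γ) := isOpenMap_quotient_mk'_mul (Γ := Γ) (T := ℍ)

lemma continuous_proj : Continuous (proj Γ) := continuous_quotient_mk'

lemma isOpen_Uset (g : SL(2, ℝ)) (a : ℝ) : IsOpen (Uset Γ g a) := by
  have h1 : Uset Γ g a = proj Γ '' ((fun z : ℍ => g⁻¹ • z) ⁻¹' (rc ⁻¹' (Set.Ioi a))) := by
    ext p
    constructor
    · rintro ⟨ζ, h, rfl⟩
      exact ⟨g • ζ, by simpa using h, rfl⟩
    · rintro ⟨z, hz, rfl⟩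
      exact ⟨g⁻¹ • z, by simpa using hz, by rw [smul_inv_smul]⟩
  rw [h1]
  apply isOpenMap_proj
  exact (isOpen_Ioi.preimage continuous_rc).preimage (continuous_const_smul _)

lemma same_orbit {g : SL(2, ℝ)} {ℓ : ℝ} (hf : IsFunnel Γ g ℓ) {ζ ζ' : ℍ}
    (h : proj Γ (g • ζ) = proj Γ (g • ζ')) (h1 : 0 < rc ζ) (h2 : 0 < rc ζ') :
    rc ζ = rc ζ' := by
  obtain ⟨γ, hγ⟩ := (proj_eq_iff _ _).mp h
  have e : ζ = (g⁻¹ * (γ : SL(2, ℝ)) * g) • ζ' := by
    have : ζ = g⁻¹ • ((γ : SL(2, ℝ)) • g • ζ') := by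
      rw [eq_inv_smul_iff]; exact hγ.symm
    rw [this, mul_smul, mul_smul]
  obtain ⟨n, hn⟩ := hf.2.2 _ γ.2 ζ' ((rc_pos_iff _).mp h2) (by rw [← e]; exact (rc_pos_iff _).mp h1)
  have e2 : g⁻¹ * (γ : SL(2, ℝ)) * g = dil ℓ ^ n := by rw [hn]; group
  rw [e, e2, rc_dil_zpow]

lemma isClosed_Cset {g : SL(2, ℝ)} {ℓ : ℝ} (hf : IsFunnel Γ g ℓ) {a : ℝ} (ha : 0 < a) :
    IsClosed (Cset Γ g a) := by
  have hq : IsClosed (Cset Γ g a) ↔ IsClosed (proj Γ ⁻¹' (Cset Γ g a)) :=
    (isQuotientMap_quotient_mk' (s := MulAction.orbitRel Γ ℍ)).isClosed_preimage.symm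
  rw [hq]
  have hmem : ∀ z : ℍ, proj Γ z ∈ Cset Γ g a ↔ ∃ γ : Γ, a ≤ rc (g⁻¹ • (γ : SL(2, ℝ)) • z) := by
    intro z
    constructor
    · rintro ⟨ζ, h, hp⟩
      obtain ⟨γ, hγ⟩ := (proj_eq_iff _ _).mp hp
      refine ⟨γ, ?_⟩
      have : g⁻¹ • (γ : SL(2, ℝ)) • z = ζ := by
        rw [inv_smul_eq_iff]; exact hγ
      rwa [this]
    · rintro ⟨γ, h⟩
      refine ⟨g⁻¹ • (γ : SL(2, ℝ)) • z, h, ?_⟩
      rw [smul_inv_smul, proj_eq_iff]
      exact ⟨γ, rfl⟩
  apply isClosed_of_closure_subset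
  intro z hz
  rw [Metric.mem_closure_iff] at hz
  obtain ⟨z', hz', hd'⟩ := hz (a / 2) (by positivity)
  obtain ⟨γ', h'⟩ := (hmem z').mp hz'
  rw [Set.mem_preimage, hmem]
  refine ⟨γ', ?_⟩
  by_contra hlt
  push Not at hlt
  -- a point of the preimage near z on which the coordinate is < a
  set r : ℍ → ℝ := fun w => rc (g⁻¹ • (γ' : SL(2, ℝ)) • w) with hr
  have hrd : ∀ w w' : ℍ, |r w - r w'| ≤ dist w w' := by
    intro w w'
    refine (abs_rc_sub_le _ _).trans ?_
    rw [dist_smul, dist_smul]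
  obtain ⟨z'', hz'', hd''⟩ := hz (min (a / 2) (a - r z))
    (lt_min (by positivity) (by linarith))
  obtain ⟨γ'', h''⟩ := (hmem z'').mp hz''
  have h1 : r z'' < a := by
    have := hrd z'' z
    rw [dist_comm] at this
    have h2 := (abs_le.mp this).2
    have h3 := lt_of_lt_of_le hd'' (min_le_right _ _)
    linarith
  have h2 : 0 < r z'' := by
    have h3 := hrd z' z''
    have h4 : dist z' z'' < a := by
      have h5 := lt_of_lt_of_le hd'' (min_le_left _ _)
      calc dist z' z'' ≤ dist z' z + dist z z'' := dist_triangle _ _ _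
        _ = dist z z' + dist z z'' := by rw [dist_comm z' z]
        _ < a := by linarith
    have h5 := (abs_le.mp h3).2
    have h6 : a ≤ r z' := h'
    linarith
  have hproj : proj Γ (g • (g⁻¹ • (γ' : SL(2, ℝ)) • z'')) =
      proj Γ (g • (g⁻¹ • (γ'' : SL(2, ℝ)) • z'')) := by
    rw [smul_inv_smul, smul_inv_smul]
    have e1 : proj Γ ((γ' : SL(2, ℝ)) • z'') = proj Γ z'' := (proj_eq_iff _ _).mpr ⟨γ', rfl⟩
    have e2 : proj Γ ((γ'' : SL(2, ℝ)) • z'') = proj Γ z'' := (proj_eq_iff _ _).mpr ⟨γ'', rfl⟩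
    rw [e1, e2]
  have h3 := same_orbit hf hproj h2 (lt_of_lt_of_le ha h'')
  have h4 : r z'' = rc (g⁻¹ • (γ'' : SL(2, ℝ)) • z'') := h3
  linarith

lemma notMem_Cset {g : SL(2, ℝ)} {ℓ : ℝ} (hf : IsFunnel Γ g ℓ) {b : ℝ} {ζ : ℍ} (h0 : 0 < rc ζ)
    (hb : 0 < b) (h : rc ζ < b) : proj Γ (g • ζ) ∉ Cset Γ g b := by
  rintro ⟨ζ', h1, h2⟩
  have := same_orbit hf h2 (lt_of_lt_of_le hb h1) h0
  linarith

lemma isCompact_annulus {g : SL(2, ℝ)} {ℓ : ℝ} (hf : IsFunnel Γ g ℓ) {a b : ℝ} (ha : 0 < a) :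
    IsCompact (Cset Γ g a \ Uset Γ g b) := by
  have hcl : IsClosed (Cset Γ g a \ Uset Γ g b) :=
    (isClosed_Cset hf ha).sdiff (isOpen_Uset g b)
  have hK : IsCompact ((fun q : ℝ × ℝ => proj Γ (g • fermi q.1 q.2)) ''
      (Set.Icc a b ×ˢ Set.Icc 0 ℓ)) := by
    apply IsCompact.image (isCompact_Icc.prod isCompact_Icc)
    exact continuous_proj.comp ((continuous_const_smul g).comp continuous_fermi)
  refine hK.of_isClosed_subset hcl ?_
  rintro p ⟨⟨ζ, h1, rfl⟩, h2⟩
  have h3 : rc ζ ≤ b := by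
    by_contra h
    push Not at h
    exact h2 ⟨ζ, h, rfl⟩
  have hℓ := hf.1
  set n : ℤ := -⌊tc ζ / ℓ⌋ with hn
  refine ⟨(rc ζ, tc ζ + n * ℓ), ⟨⟨h1, h3⟩, ?_, ?_⟩, ?_⟩
  · have := Int.floor_le (tc ζ / ℓ)
    rw [le_div_iff₀ hℓ] at this
    simp only [hn]; push_cast; linarith
  · have := Int.lt_floor_add_one (tc ζ / ℓ)
    rw [div_lt_iff₀ hℓ] at this
    simp only [hn]; push_cast; linarith
  · change proj Γ (g • fermi (rc ζ) (tc ζ + n * ℓ)) = _
    rw [← dil_zpow_smul_fermi, fermi_rc_tc, proj_eq_iff]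
    have hmem : g * dil ℓ ^ n * g⁻¹ ∈ Γ := by
      have : g * dil ℓ ^ n * g⁻¹ = (g * dil ℓ * g⁻¹) ^ n := by
        rw [conj_zpow]
      rw [this]
      exact Γ.zpow_mem hf.2.1 n
    refine ⟨⟨_, hmem⟩, ?_⟩
    change (g * dil ℓ ^ n * g⁻¹) • g • ζ = g • dil ℓ ^ n • ζ
    rw [mul_smul, mul_smul, inv_smul_smul]

/-- a connected set which avoids the two boundary circles of an annulus and meets the annulus is
contained in it -/
lemma subset_annulus {g : SL(2, ℝ)} {ℓ : ℝ} (hf : IsFunnel Γ g ℓ) {a b : ℝ} (ha : 0 < a)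
    (hb : 0 < b) {D : Set (Surf Γ)} (hD : IsPreconnected D)
    (hne : (D ∩ (Uset Γ g a \ Cset Γ g b)).Nonempty)
    (h1 : ∀ ζ : ℍ, rc ζ = a → proj Γ (g • ζ) ∉ D)
    (h2 : ∀ ζ : ℍ, rc ζ = b → proj Γ (g • ζ) ∉ D) : D ⊆ Uset Γ g a \ Cset Γ g b := by
  have hUC : ∀ c : ℝ, Uset Γ g c ⊆ Cset Γ g c := by
    rintro c p ⟨ζ, h, hp⟩
    exact ⟨ζ, h.le, hp⟩
  have ho1 : IsOpen (Uset Γ g a \ Cset Γ g b) :=
    (isOpen_Uset g a).sdiff (isClosed_Cset hf hb)
  have ho2 : IsOpen ((Cset Γ g a)ᶜ ∪ Uset Γ g b) :=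
    (isClosed_Cset hf ha).isOpen_compl.union (isOpen_Uset g b)
  apply IsPreconnected.subset_left_of_subset_union ho1 ho2 _ _ hne hD
  · rw [Set.disjoint_left]
    rintro p ⟨hp1, hp2⟩ (hp | hp)
    · exact hp (hUC a hp1)
    · exact hp2 (hUC b hp)
  · intro p hp
    by_cases hpa : p ∈ Cset Γ g a
    · have hpa' : p ∈ Uset Γ g a := by
        obtain ⟨ζ, h, hζ⟩ := hpa
        rcases h.lt_or_eq with h' | h'
        · exact ⟨ζ, h', hζ⟩
        · exact absurd (by rw [hζ]; exact hp) (h1 ζ h'.symm)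
      by_cases hpb : p ∈ Cset Γ g b
      · right; right
        obtain ⟨ζ, h, hζ⟩ := hpb
        rcases h.lt_or_eq with h' | h'
        · exact ⟨ζ, h', hζ⟩
        · exact absurd (by rw [hζ]; exact hp) (h2 ζ h'.symm)
      · left; exact ⟨hpa', hpb⟩
    · right; left; exact hpa

lemma sign_of_preconnected {X : Type} [TopologicalSpace X] {F : X → ℝ} (hF : Continuous F)
    {D : Set X} (hD : IsPreconnected D) (hD0 : D ⊆ (nodalSet F)ᶜ) {p q : X} (hp : p ∈ D)
    (hq : q ∈ D) : 0 < F p * F q := by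
  have hpn : F p ≠ 0 := hD0 hp
  have hqn : F q ≠ 0 := hD0 hq
  rcases lt_or_gt_of_ne hpn with h1 | h1 <;> rcases lt_or_gt_of_ne hqn with h2 | h2
  · exact mul_pos_of_neg_of_neg h1 h2
  · exfalso
    obtain ⟨r, hr, hr0⟩ := hD.intermediate_value hp hq hF.continuousOn ⟨h1.le, h2.le⟩
    exact hD0 hr hr0
  · exfalso
    obtain ⟨r, hr, hr0⟩ := hD.intermediate_value hq hp hF.continuousOn ⟨h2.le, h1.le⟩
    exact hD0 hr hr0
  · exact mul_pos h1 h2

lemma isClosed_nodalComponent {X : Type} [TopologicalSpace X] {F : X → ℝ} (hF : Continuous F)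
    (p : X) (hp : p ∈ nodalSet F) : IsClosed (connectedComponentIn (nodalSet F) p) := by
  have hcl : IsClosed (nodalSet F) := isClosed_singleton.preimage hF
  have h1 : closure (connectedComponentIn (nodalSet F) p) ⊆ nodalSet F :=
    closure_minimal (connectedComponentIn_subset _ _) hcl
  have h2 : IsPreconnected (closure (connectedComponentIn (nodalSet F) p)) :=
    isPreconnected_connectedComponentIn.closure
  exact isClosed_of_closure_subset (h2.subset_connectedComponentIn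
    (subset_closure (mem_connectedComponentIn hp)) h1)

/-- The topological part: alternating signs on circles escaping to infinity. -/
theorem nodal_of_signs {g : SL(2, ℝ)} {ℓ : ℝ} (hf : IsFunnel Γ g ℓ) {F : Surf Γ → ℝ}
    (hF : Continuous F) (x : ℕ → ℝ) (hx : StrictMono x) (hx0 : 0 < x 0)
    (hxt : Tendsto x atTop atTop)
    (hs : ∀ k, ∀ ζ : ℍ, rc ζ = x k → 0 < (-1) ^ k * F (proj Γ (g • ζ))) :
    {D | IsCompactNodalDomain F D}.Infinite ∧
      ∀ K : Set (Surf Γ), IsCompact K → ∃ C, IsCompactNodalComponent F C ∧ Disjoint C K := by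
  have hpos : ∀ k, 0 < x k := fun k => lt_of_lt_of_le hx0 (hx.monotone (Nat.zero_le k))
  set p : ℕ → Surf Γ := fun k => proj Γ (g • fermi (x k) 0) with hp
  have hpn : ∀ k, p k ∈ (nodalSet F)ᶜ := by
    intro k h0
    have := hs k (fermi (x k) 0) (rc_fermi _ _)
    rw [show F (proj Γ (g • fermi (x k) 0)) = 0 from h0, mul_zero] at this
    exact lt_irrefl _ this
  have hpU : ∀ k a, a < x k → p k ∈ Uset Γ g a := fun k a h =>
    ⟨fermi (x k) 0, by rwa [rc_fermi], rfl⟩
  have hpC : ∀ k b, x k < b → p k ∉ Cset Γ g b := fun k b h =>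
    notMem_Cset hf (by rw [rc_fermi]; exact hpos k) (lt_trans (hpos k) h) (by rwa [rc_fermi])
  set D : ℕ → Set (Surf Γ) := fun k => connectedComponentIn (nodalSet F)ᶜ (p (k + 1)) with hD
  have hDsub : ∀ k, D k ⊆ Uset Γ g (x k) \ Cset Γ g (x (k + 2)) := by
    intro k
    have hneg : ∀ j : ℕ, (j = k ∨ j = k + 2) → ∀ ζ : ℍ, rc ζ = x j →
        proj Γ (g • ζ) ∉ D k := by
      intro j hj ζ hζ hmem
      have h1 := sign_of_preconnected hF (isPreconnected_connectedComponentIn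
        (F := (nodalSet F)ᶜ) (x := p (k + 1))) (connectedComponentIn_subset _ _)
        (mem_connectedComponentIn (hpn (k + 1))) hmem
      have h2 := hs (k + 1) (fermi (x (k + 1)) 0) (rc_fermi _ _)
      have h3 := hs j ζ hζ
      have h4 : (-1 : ℝ) ^ j = (-1) ^ k := by
        rcases hj with rfl | rfl
        · rfl
        · rw [pow_add]; norm_num
      rw [h4] at h3
      have h5 : (-1 : ℝ) ^ (k + 1) = -(-1) ^ k := by rw [pow_succ]; ring
      rw [h5] at h2
      have h6 : (-1 : ℝ) ^ k * (-1) ^ k = 1 := by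
        rw [← mul_pow]; norm_num
      have h7 := mul_pos h2 h3
      have h8 : -(-1 : ℝ) ^ k * F (proj Γ (g • fermi (x (k + 1)) 0)) *
          ((-1) ^ k * F (proj Γ (g • ζ))) = -((-1 : ℝ) ^ k * (-1) ^ k) *
          (F (proj Γ (g • fermi (x (k + 1)) 0)) * F (proj Γ (g • ζ))) := by ring
      rw [h8, h6] at h7
      have h9 : 0 < F (proj Γ (g • fermi (x (k + 1)) 0)) * F (proj Γ (g • ζ)) := h1
      linarith
    apply subset_annulus hf (hpos k) (hpos (k + 2)) isPreconnected_connectedComponentIn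
    · exact ⟨p (k + 1), mem_connectedComponentIn (hpn (k + 1)),
        hpU (k + 1) _ (hx (by omega)), hpC (k + 1) _ (hx (by omega))⟩
    · exact hneg k (Or.inl rfl)
    · exact hneg (k + 2) (Or.inr rfl)
  have hUCsub : ∀ a b : ℝ, Uset Γ g a \ Cset Γ g b ⊆ Cset Γ g a \ Uset Γ g b := by
    rintro a b q ⟨⟨ζ, h1, rfl⟩, h2⟩
    refine ⟨⟨ζ, h1.le, rfl⟩, fun h3 => h2 ?_⟩
    obtain ⟨ζ', h4, h5⟩ := h3
    exact ⟨ζ', h4.le, h5⟩
  constructor
  · apply Set.infinite_of_injective_forall_mem (f := D)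
    · intro j k hjk
      by_contra hne
      have key : ∀ i m : ℕ, i < m → D i = D m → False := by
        intro i m him he
        have h1 : p (m + 1) ∈ D i := by
          rw [he]; exact mem_connectedComponentIn (hpn (m + 1))
        have h2 := (hDsub i h1).2
        exact h2 ⟨fermi (x (m + 1)) 0, by
          rw [rc_fermi]; exact hx.monotone (by omega), rfl⟩
      rcases Nat.lt_or_gt_of_ne hne with h | h
      · exact key j k h hjk
      · exact key k j h hjk.symm
    · intro k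
      refine ⟨⟨p (k + 1), hpn (k + 1), rfl⟩, ?_⟩
      have h1 : closure (D k) ⊆ Cset Γ g (x k) \ Uset Γ g (x (k + 2)) := by
        apply closure_minimal ((hDsub k).trans (hUCsub _ _))
        exact (isClosed_Cset hf (hpos k)).sdiff (isOpen_Uset g _)
      exact (isCompact_annulus hf (hpos k)).of_isClosed_subset isClosed_closure h1
  · intro K hK
    -- the circles escape `K`
    obtain ⟨k, hk⟩ : ∃ k, K ⊆ (Cset Γ g (x k))ᶜ := by
      apply hK.elim_directed_cover (fun k => (Cset Γ g (x k))ᶜ)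
        (fun k => (isClosed_Cset hf (hpos k)).isOpen_compl)
      · intro q _
        rw [Set.mem_iUnion]
        by_cases h0 : q ∈ Cset Γ g (x 0)
        · obtain ⟨ζ, h1, rfl⟩ := h0
          obtain ⟨n, hn⟩ := (hxt.eventually_gt_atTop (rc ζ)).exists
          exact ⟨n, notMem_Cset hf (lt_of_lt_of_le hx0 h1) (hpos n) hn⟩
        · exact ⟨0, h0⟩
      · intro i j
        refine ⟨max i j, ?_, ?_⟩
        · apply Set.compl_subset_compl.mpr
          rintro q ⟨ζ, h, hq⟩
          exact ⟨ζ, (hx.monotone (le_max_left i j)).trans h, hq⟩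
        · apply Set.compl_subset_compl.mpr
          rintro q ⟨ζ, h, hq⟩
          exact ⟨ζ, (hx.monotone (le_max_right i j)).trans h, hq⟩
    -- a zero between the circles `k` and `k+1`
    set φ : ℝ → ℝ := fun y => (-1) ^ k * F (proj Γ (g • fermi y 0)) with hφ
    have hφc : Continuous φ := by
      apply continuous_const.mul
      apply hF.comp
      apply continuous_proj.comp
      apply (continuous_const_smul g).comp
      exact continuous_fermi.comp (continuous_id.prodMk continuous_const)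
    have hk1 : 0 < φ (x k) := hs k _ (rc_fermi _ _)
    have hk2 : φ (x (k + 1)) < 0 := by
      have h := hs (k + 1) (fermi (x (k + 1)) 0) (rc_fermi _ _)
      rw [pow_succ] at h
      simp only [hφ]
      linarith
    have hlt : x k < x (k + 1) := hx (by omega)
    obtain ⟨y, hy, hy0⟩ := intermediate_value_Icc' hlt.le hφc.continuousOn ⟨hk2.le, hk1.le⟩
    have hy1 : x k < y := by
      rcases hy.1.lt_or_eq with h | h
      · exact h
      · rw [← h] at hy0; linarith
    have hy2 : y < x (k + 1) := by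
      rcases hy.2.lt_or_eq with h | h
      · exact h
      · rw [h] at hy0; linarith
    have hFy : F (proj Γ (g • fermi y 0)) = 0 := by
      have : (-1 : ℝ) ^ k ≠ 0 := pow_ne_zero _ (by norm_num)
      exact (mul_eq_zero.mp hy0).resolve_left this
    set q := proj Γ (g • fermi y 0) with hq
    have hqN : q ∈ nodalSet F := hFy
    set C := connectedComponentIn (nodalSet F) q with hC
    have hCsub : C ⊆ Uset Γ g (x k) \ Cset Γ g (x (k + 1)) := by
      have hne : ∀ j, ∀ ζ : ℍ, rc ζ = x j → proj Γ (g • ζ) ∉ C := by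
        intro j ζ hζ hmem
        have h1 := hs j ζ hζ
        have h2 : F (proj Γ (g • ζ)) = 0 := connectedComponentIn_subset (nodalSet F) q hmem
        rw [h2, mul_zero] at h1
        exact lt_irrefl _ h1
      apply subset_annulus hf (hpos k) (hpos (k + 1)) isPreconnected_connectedComponentIn
      · refine ⟨q, mem_connectedComponentIn hqN, ⟨fermi y 0, by rwa [rc_fermi], rfl⟩, ?_⟩
        exact notMem_Cset hf (by rw [rc_fermi]; exact lt_trans (hpos k) hy1) (hpos (k + 1))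
          (by rwa [rc_fermi])
      · exact hne k
      · exact hne (k + 1)
    refine ⟨C, ⟨⟨q, hqN, rfl⟩, ?_⟩, ?_⟩
    · exact (isCompact_annulus hf (hpos k)).of_isClosed_subset (isClosed_nodalComponent hF q hqN)
        (hCsub.trans (hUCsub _ _))
    · rw [Set.disjoint_left]
      intro r hr hrK
      exact hk hrK (hUCsub _ _ (hCsub hr)).1

end

end Pool.Agent.helper18.Eis
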