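import Pool.Agent.helper18.Eis.KernelInt

set_option autoImplicit false

open scoped UpperHalfPlane MatrixGroups Topology
open Filter MeasureTheory

namespace Pool.Agent.helper18.Eis

noncomputable section

variable {Γ : Subgroup SL(2, ℝ)}

lemma planeKernel_congr (s : ℂ) {z w z' w' : ℍ} (h : dist z w = dist z' w') :
    planeKernel s z w = planeKernel s z' w' := by
  rw [planeKernel_eq, planeKernel_eq, h]

lemma exists_out (z : ℍ) : ∃ γ : Γ, (proj Γ z).out = γ • z := by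
  have h : (MulAction.orbitRel Γ ℍ) (proj Γ z).out z := Quotient.mk_out z
  rw [MulAction.orbitRel_apply] at h
  obtain ⟨γ, hγ⟩ := h
  exact ⟨γ, hγ.symm⟩

lemma proj_eq_iff (z w : ℍ) : proj Γ z = proj Γ w ↔ ∃ γ : Γ, γ • w = z := by
  constructor
  · intro h
    have h1 : (MulAction.orbitRel Γ ℍ) z w := Quotient.exact h
    rw [MulAction.orbitRel_apply] at h1
    exact h1
  · rintro ⟨γ, rfl⟩
    apply Quotient.sound
    change (MulAction.orbitRel Γ ℍ) _ _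
    rw [MulAction.orbitRel_apply]
    exact ⟨γ, rfl⟩

lemma dist_smul_smul (γ₁ γ₂ γ : Γ) (z w : ℍ) :
    dist (γ₁ • z) (γ • γ₂ • w) = dist z ((γ₁⁻¹ * γ * γ₂) • w) := by
  rw [mul_smul, mul_smul]
  have h : dist (γ₁⁻¹ • (γ₁ • z)) (γ₁⁻¹ • (γ • γ₂ • w)) = dist (γ₁ • z) (γ • γ₂ • w) := by
    have := dist_smul (γ₁⁻¹ : SL(2, ℝ)) (γ₁ • z) (γ • γ₂ • w)
    exact this
  rw [← h, inv_smul_smul]

lemma resolventKernel_proj (s : ℂ) (z w : ℍ) :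
    resolventKernel Γ s (proj Γ z) (proj Γ w) = ∑' γ : Γ, planeKernel s z (γ • w) := by
  obtain ⟨γ₁, h1⟩ := exists_out (Γ := Γ) z
  obtain ⟨γ₂, h2⟩ := exists_out (Γ := Γ) w
  rw [resolventKernel, h1, h2]
  rw [← Equiv.tsum_eq ((Equiv.mulLeft γ₁⁻¹).trans (Equiv.mulRight γ₂))
    (fun γ : Γ => planeKernel s z (γ • w))]
  apply tsum_congr
  intro γ
  exact planeKernel_congr s (dist_smul_smul γ₁ γ₂ γ z w)

/-- the element moving the second chart to the first -/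
def hm (g₁ g₂ : SL(2, ℝ)) (γ : Γ) : SL(2, ℝ) := g₁⁻¹ * (γ : SL(2, ℝ))⁻¹ * g₂

lemma dist_hm (g₁ g₂ : SL(2, ℝ)) (γ : Γ) (ζ w : ℍ) :
    dist (g₂ • ζ) (γ • g₁ • w) = dist (hm g₁ g₂ γ • ζ) w := by
  rw [hm, mul_smul, mul_smul]
  have h := dist_smul (g₁⁻¹ * (γ : SL(2, ℝ))⁻¹) (g₂ • ζ) ((γ : SL(2, ℝ)) • g₁ • w)
  rw [mul_smul, mul_smul, inv_smul_smul, inv_smul_smul] at h
  exact h.symm

/-- the orbit stays at bounded height over the first funnel -/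
lemma exists_bound {g₁ : SL(2, ℝ)} {ℓ₁ : ℝ} (hf : IsFunnel Γ g₁ ℓ₁) (g₂ : SL(2, ℝ)) (ζ : ℍ) :
    ∃ R : ℝ, 0 ≤ R ∧ ∀ γ : Γ, rc (hm g₁ g₂ γ • ζ) ≤ R := by
  by_cases h : ∃ γ : Γ, 0 < rc (hm g₁ g₂ γ • ζ)
  · obtain ⟨γ₁, h1⟩ := h
    refine ⟨rc (hm g₁ g₂ γ₁ • ζ), h1.le, fun γ => ?_⟩
    rcases le_or_gt (rc (hm g₁ g₂ γ • ζ)) 0 with h0 | h0
    · linarith
    · have hmem : (γ : SL(2, ℝ))⁻¹ * γ₁ ∈ Γ := Γ.mul_mem (Γ.inv_mem γ.2) γ₁.2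
      have e : hm g₁ g₂ γ • ζ = (g₁⁻¹ * ((γ : SL(2, ℝ))⁻¹ * γ₁) * g₁) • (hm g₁ g₂ γ₁ • ζ) := by
        rw [← mul_smul]
        congr 1
        rw [hm, hm]
        group
      obtain ⟨n, hn⟩ := hf.2.2 _ hmem (hm g₁ g₂ γ₁ • ζ) ((rc_pos_iff _).mp h1)
        (by rw [← e]; exact (rc_pos_iff _).mp h0)
      have e2 : g₁⁻¹ * ((γ : SL(2, ℝ))⁻¹ * γ₁) * g₁ = dil ℓ₁ ^ n := by
        rw [hn]; group
      rw [e, e2, rc_dil_zpow]
  · push Not at h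
    exact ⟨0, le_rfl, h⟩

lemma summable_D0 (hΓ : ExponentLtHalf Γ) (g₁ g₂ : SL(2, ℝ)) (ζ w : ℍ) :
    Summable fun γ : Γ => Real.exp (-(dist (hm g₁ g₂ γ • ζ) w / 2)) := by
  obtain ⟨a, ha, hs⟩ := hΓ
  set C : ℝ := dist UpperHalfPlane.I (g₂ • ζ) + dist (g₁ • w) UpperHalfPlane.I
  refine Summable.of_nonneg_of_le (fun γ => (Real.exp_pos _).le) (fun γ => ?_)
    (hs.mul_left (Real.exp (C / 2)))
  rw [← Real.exp_add]
  apply Real.exp_le_exp.mpr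
  rw [← dist_hm]
  have h1 : dist UpperHalfPlane.I (γ • UpperHalfPlane.I) ≤
      dist UpperHalfPlane.I (g₂ • ζ) + dist (g₂ • ζ) (γ • g₁ • w) +
        dist (γ • g₁ • w) (γ • UpperHalfPlane.I) := dist_triangle4 _ _ _ _
  have h2 : dist (γ • g₁ • w) (γ • UpperHalfPlane.I) = dist (g₁ • w) UpperHalfPlane.I := by
    have := dist_smul (γ : SL(2, ℝ)) (g₁ • w) UpperHalfPlane.I
    exact this
  rw [h2] at h1
  have h3 : 0 ≤ dist UpperHalfPlane.I (γ • UpperHalfPlane.I) := dist_nonneg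
  have h4 : a * dist UpperHalfPlane.I (γ • UpperHalfPlane.I) ≤
      1 / 2 * dist UpperHalfPlane.I (γ • UpperHalfPlane.I) :=
    mul_le_mul_of_nonneg_right ha.le h3
  simp only [C]
  linarith

lemma eventually_small (R : ℝ) :
    ∀ᶠ ρ in 𝓝[>] (0 : ℝ), 0 < ρ ∧ ρ ≤ Real.exp (-(2 * R)) / 2 := by
  have h : 0 < Real.exp (-(2 * R)) / 2 := by positivity
  filter_upwards [self_mem_nhdsWithin, nhdsWithin_le_nhds (Iic_mem_nhds h)] with ρ h1 h2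
  exact ⟨h1, h2⟩

lemma Kf_ge {g₁ g₂ : SL(2, ℝ)} {ζ : ℍ} (ξ : ℝ) {R : ℝ} (hR : 0 ≤ R) (γ : Γ)
    (h : rc (hm g₁ g₂ γ • ζ) ≤ R) :
    Real.exp (-(2 * R)) / 4 * Real.cosh (dist (hm g₁ g₂ γ • ζ) (fermi 0 ξ)) ≤
      Kf (hm g₁ g₂ γ) (Real.exp ξ) ζ := by
  apply ge_of_tendsto (tendsto_rho_sinh (hm g₁ g₂ γ) ξ ζ)
  filter_upwards [eventually_small R] with ρ hρ
  exact rho_sinh_ge _ ξ R ρ hR h hρ.1 hρ.2

lemma Kf_pos {g₁ g₂ : SL(2, ℝ)} {ζ : ℍ} (ξ : ℝ) {R : ℝ} (hR : 0 ≤ R) (γ : Γ)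
    (h : rc (hm g₁ g₂ γ • ζ) ≤ R) : 0 < Kf (hm g₁ g₂ γ) (Real.exp ξ) ζ := by
  refine lt_of_lt_of_le ?_ (Kf_ge ξ hR γ h)
  have := Real.cosh_pos (dist (hm g₁ g₂ γ • ζ) (fermi 0 ξ))
  positivity

lemma rpow_bound {c d x : ℝ} (hc : 0 < c) (hx : c * Real.cosh d ≤ x) :
    x ^ (-(1 / 2) : ℝ) ≤ (c / 2) ^ (-(1 / 2) : ℝ) * Real.exp (-(d / 2)) := by
  have h1 : c / 2 * Real.exp d ≤ x := by
    refine le_trans ?_ hx
    rw [Real.cosh_eq]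
    have := Real.exp_pos (-d)
    have := Real.exp_pos d
    nlinarith
  have h2 : 0 < c / 2 * Real.exp d := by positivity
  refine (Real.rpow_le_rpow_of_nonpos h2 h1 (by norm_num)).trans ?_
  rw [Real.mul_rpow (by positivity) (Real.exp_pos _).le, ← Real.exp_mul]
  apply le_of_eq
  congr 2
  ring

/-- The Eisenstein series exists and is given by the expected series. -/
theorem eis_tendsto (hΓ : ExponentLtHalf Γ) {g₁ : SL(2, ℝ)} {ℓ₁ : ℝ} (hf : IsFunnel Γ g₁ ℓ₁)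
    (g₂ : SL(2, ℝ)) (s : ℂ) (hs : s.re = 1 / 2) (ξ : ℝ) (ζ : ℍ) :
    Tendsto (fun ρ : ℝ => (ρ : ℂ) ^ (-s) *
        resolventKernel Γ s (proj Γ (g₂ • ζ)) (funnelPoint Γ g₁ ρ ξ)) (𝓝[>] 0)
      (𝓝 (∑' γ : Γ, 1 / (4 * (Real.pi : ℂ)) * (Complex.betaIntegral s s *
        (Kf (hm g₁ g₂ γ) (Real.exp ξ) ζ : ℂ) ^ (-s)))) := by
  obtain ⟨R, hR, hb⟩ := exists_bound hf g₂ ζ
  have hs0 : 0 < s.re := by rw [hs]; norm_num
  set c : ℝ := Real.exp (-(2 * R)) / 4 with hc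
  have hcpos : 0 < c := by positivity
  have e : ∀ ρ : ℝ, (ρ : ℂ) ^ (-s) *
        resolventKernel Γ s (proj Γ (g₂ • ζ)) (funnelPoint Γ g₁ ρ ξ) =
      ∑' γ : Γ, (ρ : ℂ) ^ (-s) *
        Gk s (Real.sinh (dist (hm g₁ g₂ γ • ζ) (fermi (Real.log (2 / ρ)) ξ) / 2) ^ 2) := by
    intro ρ
    rw [funnelPoint, resolventKernel_proj, ← tsum_mul_left]
    apply tsum_congr
    intro γ
    rw [planeKernel_eq, dist_hm]
  simp only [e]
  apply tendsto_tsum_of_dominated_convergence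
    (bound := fun γ : Γ => Cb s * ((c / 2) ^ (-(1 / 2) : ℝ) *
      Real.exp (-(dist (hm g₁ g₂ γ • ζ) (fermi 0 ξ) / 2))))
  · exact ((summable_D0 hΓ g₁ g₂ ζ (fermi 0 ξ)).mul_left _).mul_left _
  · intro γ
    apply tendsto_scaled s hs0 _ _ (Kf_pos ξ hR γ (hb γ))
    · filter_upwards [eventually_small R] with ρ hρ
      have h1 := rho_sinh_ge _ ξ R ρ hR (hb γ) hρ.1 hρ.2
      have h2 : 0 < Real.exp (-(2 * R)) / 4 *
          Real.cosh (dist (hm g₁ g₂ γ • ζ) (fermi 0 ξ)) := by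
        have := Real.cosh_pos (dist (hm g₁ g₂ γ • ζ) (fermi 0 ξ))
        positivity
      exact pos_of_mul_pos_right (lt_of_lt_of_le h2 h1) hρ.1.le
    · exact tendsto_rho_sinh _ _ _
  · filter_upwards [eventually_small R] with ρ hρ γ
    have h1 := rho_sinh_ge _ ξ R ρ hR (hb γ) hρ.1 hρ.2
    have h2 : 0 < Real.exp (-(2 * R)) / 4 *
          Real.cosh (dist (hm g₁ g₂ γ • ζ) (fermi 0 ξ)) := by
        have := Real.cosh_pos (dist (hm g₁ g₂ γ • ζ) (fermi 0 ξ))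
        positivity
    have hu := pos_of_mul_pos_right (lt_of_lt_of_le h2 h1) hρ.1.le
    refine (norm_scaled_le s hs0 ρ _ hρ.1 hu).trans ?_
    apply mul_le_mul_of_nonneg_left _ (Cb_nonneg s)
    rw [hs]
    exact rpow_bound hcpos h1

end

end Pool.Agent.helper18.Eis
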