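import Pool.Agent.helper18.Eis.Asymp

set_option autoImplicit false

open scoped UpperHalfPlane MatrixGroups Topology
open Filter MeasureTheory

namespace Pool.Agent.helper18.Eis

noncomputable section

variable {Γ : Subgroup SL(2, ℝ)}

/-- the spectral parameter `1/2 + iλ` -/
def sp (lam : ℝ) : ℂ := 1 / 2 + lam * Complex.I

lemma sp_re (lam : ℝ) : (sp lam).re = 1 / 2 := by
  rw [sp, Complex.add_re, Complex.mul_I_re, Complex.ofReal_im, neg_zero, add_zero]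
  norm_num

lemma sp_im (lam : ℝ) : (sp lam).im = lam := by
  rw [sp, Complex.add_im, Complex.mul_I_im, Complex.ofReal_re]
  norm_num

lemma re_cpow_sp (lam B : ℝ) (hB : 0 < B) :
    ((B : ℂ) ^ (-(sp lam))).re = B ^ (-(1 / 2) : ℝ) * Real.cos (lam * Real.log B) := by
  rw [Complex.cpow_def_of_ne_zero (Complex.ofReal_ne_zero.mpr hB.ne'), Complex.exp_re,
    ← Complex.ofReal_log hB.le, Complex.re_ofReal_mul, Complex.im_ofReal_mul, Complex.neg_re,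
    Complex.neg_im, sp_re, sp_im, Real.rpow_def_of_pos hB]
  rw [mul_neg (Real.log B) lam, Real.cos_neg, mul_comm (Real.log B) lam]

lemma norm_cpow_sp (lam B : ℝ) (hB : 0 < B) :
    ‖(B : ℂ) ^ (-(sp lam))‖ = B ^ (-(1 / 2) : ℝ) := by
  rw [norm_cpow_neg _ _ hB, sp_re]

/-- the normalised series in the funnel -/
def Sf (Γ : Subgroup SL(2, ℝ)) (g₁ g₂ : SL(2, ℝ)) (ξ lam x θ : ℝ) : ℂ :=
  ∑' γ : Γ, (Bf (hm g₁ g₂ γ) (Real.exp ξ) x θ : ℂ) ^ (-(sp lam))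

lemma rpow_Bf_le {g₁ g₂ : SL(2, ℝ)} (hd : DisjointFunnels Γ g₁ g₂) (ξ T x θ : ℝ)
    (hθ : |θ| ≤ T) (γ : Γ) :
    Bf (hm g₁ g₂ γ) (Real.exp ξ) x θ ^ (-(1 / 2) : ℝ) ≤
      Real.exp (-T) ^ (-(1 / 2) : ℝ) * qf (hm g₁ g₂ γ) (Real.exp ξ) ^ (-(1 / 2) : ℝ) := by
  have hab := al_be_nonneg hd γ (Real.exp ξ) (Real.exp_pos ξ)
  have hq := qf_pos (hm g₁ g₂ γ) (Real.exp ξ)
  rw [← Real.mul_rpow (Real.exp_pos _).le hq.le]
  exact Real.rpow_le_rpow_of_nonpos (mul_pos (Real.exp_pos _) hq) (Bf_ge _ _ _ _ _ hab hθ)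
    (by norm_num)

/-- for small `λ` the normalised series has positive real part -/
lemma Sf_re_pos (hΓ : ExponentLtHalf Γ) {g₁ : SL(2, ℝ)} {ℓ₁ : ℝ} (hf : IsFunnel Γ g₁ ℓ₁)
    {g₂ : SL(2, ℝ)} (hd : DisjointFunnels Γ g₁ g₂) (ξ T : ℝ) :
    ∃ lam₀ : ℝ, 0 < lam₀ ∧ ∀ lam : ℝ, |lam| < lam₀ → ∀ x θ : ℝ, 0 ≤ x → |θ| ≤ T →
      0 < (Sf Γ g₁ g₂ ξ lam x θ).re := by
  set q : Γ → ℝ := fun γ => qf (hm g₁ g₂ γ) (Real.exp ξ) with hq
  have hqpos : ∀ γ, 0 < q γ := fun γ => qf_pos _ _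
  set c : ℝ := Real.exp (-T) ^ (-(1 / 2) : ℝ) with hc
  have hcpos : 0 < c := Real.rpow_pos_of_pos (Real.exp_pos _) _
  have hsum : Summable fun γ : Γ => q γ ^ (-(1 / 2) : ℝ) := summable_qf hΓ hf g₂ ξ
  set L : Γ → ℝ := fun γ => |Real.log (Real.exp (-T) * q γ)| +
    |Real.log (4 * Real.exp T * q γ)| with hL
  set G : ℝ → Γ → ℝ := fun lam γ => c * q γ ^ (-(1 / 2) : ℝ) *
    min 2 ((lam * L γ) ^ 2 / 2) with hG
  -- the error tends to zero
  have hlim : Tendsto (fun lam : ℝ => ∑' γ, G lam γ) (𝓝 0) (𝓝 (∑' γ : Γ, (0 : ℝ))) := by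
    apply tendsto_tsum_of_dominated_convergence
      (bound := fun γ : Γ => c * q γ ^ (-(1 / 2) : ℝ) * 2)
    · exact (hsum.mul_left c).mul_right 2
    · intro γ
      have h1 : ContinuousAt (fun lam : ℝ => G lam γ) 0 := by
        simp only [hG]
        fun_prop
      have h2 := h1.tendsto
      simp only [hG, zero_mul, ne_eq, OfNat.ofNat_ne_zero, not_false_eq_true, zero_pow,
        zero_div] at h2
      rwa [min_eq_right (by norm_num), mul_zero] at h2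
    · refine Filter.Eventually.of_forall fun lam γ => ?_
      have h1 : 0 ≤ c * q γ ^ (-(1 / 2) : ℝ) :=
        mul_nonneg hcpos.le (Real.rpow_nonneg (hqpos γ).le _)
      have h2 : 0 ≤ min 2 ((lam * L γ) ^ 2 / 2) := le_min (by norm_num) (by positivity)
      rw [Real.norm_eq_abs, abs_of_nonneg (mul_nonneg h1 h2)]
      exact mul_le_mul_of_nonneg_left (min_le_left _ _) h1
  rw [tsum_zero] at hlim
  set m0 : ℝ := (4 * Real.exp T * q 1) ^ (-(1 / 2) : ℝ) with hm0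
  have hm0pos : 0 < m0 := Real.rpow_pos_of_pos (mul_pos (by positivity) (hqpos 1)) _
  obtain ⟨lam₀, hl0, hl⟩ := Metric.eventually_nhds_iff.mp (hlim.eventually (gt_mem_nhds hm0pos))
  refine ⟨lam₀, hl0, fun lam hlam x θ hx hθ => ?_⟩
  have hG0 := hl (by rwa [Real.dist_eq, sub_zero])
  -- termwise
  set b : Γ → ℝ := fun γ => Bf (hm g₁ g₂ γ) (Real.exp ξ) x θ with hb
  have hab : ∀ γ : Γ, 0 ≤ al (hm g₁ g₂ γ) (Real.exp ξ) * be (hm g₁ g₂ γ) (Real.exp ξ) :=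
    fun γ => al_be_nonneg hd γ (Real.exp ξ) (Real.exp_pos ξ)
  have hbpos : ∀ γ, 0 < b γ := fun γ => Bf_pos _ _ _ _ (hab γ)
  have hble : ∀ γ, b γ ^ (-(1 / 2) : ℝ) ≤ c * q γ ^ (-(1 / 2) : ℝ) :=
    fun γ => rpow_Bf_le hd ξ T x θ hθ γ
  have hbsum : Summable fun γ : Γ => b γ ^ (-(1 / 2) : ℝ) :=
    Summable.of_nonneg_of_le (fun γ => Real.rpow_nonneg (hbpos γ).le _) hble (hsum.mul_left c)
  have hcs : Summable fun γ : Γ => (b γ : ℂ) ^ (-(sp lam)) := by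
    apply Summable.of_norm
    refine hbsum.congr fun γ => ?_
    rw [norm_cpow_sp lam _ (hbpos γ)]
  have hre : (Sf Γ g₁ g₂ ξ lam x θ).re =
      ∑' γ : Γ, b γ ^ (-(1 / 2) : ℝ) * Real.cos (lam * Real.log (b γ)) := by
    rw [Sf, Complex.re_tsum hcs]
    apply tsum_congr
    intro γ
    exact re_cpow_sp lam _ (hbpos γ)
  have hGsum : Summable fun γ : Γ => G lam γ := by
    refine Summable.of_nonneg_of_le (fun γ => ?_) (fun γ => ?_) ((hsum.mul_left c).mul_right 2)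
    · exact mul_nonneg (mul_nonneg hcpos.le (Real.rpow_nonneg (hqpos γ).le _))
        (le_min (by norm_num) (by positivity))
    · exact mul_le_mul_of_nonneg_left (min_le_left _ _)
        (mul_nonneg hcpos.le (Real.rpow_nonneg (hqpos γ).le _))
  have hterm : ∀ γ, b γ ^ (-(1 / 2) : ℝ) - G lam γ ≤
      b γ ^ (-(1 / 2) : ℝ) * Real.cos (lam * Real.log (b γ)) := by
    intro γ
    have h0 : 0 ≤ b γ ^ (-(1 / 2) : ℝ) := Real.rpow_nonneg (hbpos γ).le _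
    have hlog : |Real.log (b γ)| ≤ L γ := by
      have h1 : Real.log (Real.exp (-T) * q γ) ≤ Real.log (b γ) :=
        Real.log_le_log (mul_pos (Real.exp_pos _) (hqpos γ)) (Bf_ge _ _ _ _ _ (hab γ) hθ)
      have h2 : Real.log (b γ) ≤ Real.log (4 * Real.exp T * q γ) :=
        Real.log_le_log (hbpos γ) (Bf_le _ _ _ _ _ hx hθ)
      rw [abs_le]
      simp only [hL]
      constructor
      · have := neg_abs_le (Real.log (Real.exp (-T) * q γ))
        have := abs_nonneg (Real.log (4 * Real.exp T * q γ))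
        linarith
      · have := le_abs_self (Real.log (4 * Real.exp T * q γ))
        have := abs_nonneg (Real.log (Real.exp (-T) * q γ))
        linarith
    have hsq : (lam * Real.log (b γ)) ^ 2 ≤ (lam * L γ) ^ 2 := by
      rw [mul_pow, mul_pow]
      apply mul_le_mul_of_nonneg_left _ (sq_nonneg _)
      rw [← sq_abs (Real.log (b γ))]
      exact pow_le_pow_left₀ (abs_nonneg _) hlog 2
    have hcos : 1 - Real.cos (lam * Real.log (b γ)) ≤ min 2 ((lam * L γ) ^ 2 / 2) := by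
      apply le_min
      · have := Real.neg_one_le_cos (lam * Real.log (b γ))
        linarith
      · have := Real.one_sub_sq_div_two_le_cos (x := lam * Real.log (b γ))
        linarith
    have hcos0 : 0 ≤ 1 - Real.cos (lam * Real.log (b γ)) := by
      have := Real.cos_le_one (lam * Real.log (b γ))
      linarith
    have h5 : b γ ^ (-(1 / 2) : ℝ) * (1 - Real.cos (lam * Real.log (b γ))) ≤ G lam γ :=
      mul_le_mul (hble γ) hcos hcos0
        (mul_nonneg hcpos.le (Real.rpow_nonneg (hqpos γ).le _))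
    linarith
  have hcossum : Summable fun γ : Γ =>
      b γ ^ (-(1 / 2) : ℝ) * Real.cos (lam * Real.log (b γ)) := by
    refine (Complex.hasSum_re hcs.hasSum).summable.congr fun γ => ?_
    rw [re_cpow_sp lam _ (hbpos γ)]
  rw [hre]
  have h6 : ∑' γ : Γ, (b γ ^ (-(1 / 2) : ℝ) - G lam γ) ≤
      ∑' γ : Γ, b γ ^ (-(1 / 2) : ℝ) * Real.cos (lam * Real.log (b γ)) :=
    Summable.tsum_le_tsum hterm (hbsum.sub hGsum) hcossum
  rw [Summable.tsum_sub hbsum hGsum] at h6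
  have h7 : b 1 ^ (-(1 / 2) : ℝ) ≤ ∑' γ : Γ, b γ ^ (-(1 / 2) : ℝ) :=
    hbsum.le_tsum 1 fun γ _ => Real.rpow_nonneg (hbpos γ).le _
  have h8 : m0 ≤ b 1 ^ (-(1 / 2) : ℝ) :=
    Real.rpow_le_rpow_of_nonpos (hbpos 1) (Bf_le _ _ _ _ _ hx hθ) (by norm_num)
  linarith

lemma continuous_Bf (h : SL(2, ℝ)) (η : ℝ) : Continuous fun p : ℝ × ℝ => Bf h η p.1 p.2 := by
  unfold Bf
  fun_prop

lemma continuousOn_Sf (hΓ : ExponentLtHalf Γ) {g₁ : SL(2, ℝ)} {ℓ₁ : ℝ} (hf : IsFunnel Γ g₁ ℓ₁)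
    {g₂ : SL(2, ℝ)} (hd : DisjointFunnels Γ g₁ g₂) (ξ lam : ℝ) :
    Continuous fun p : ℝ × ℝ => Sf Γ g₁ g₂ ξ lam p.1 p.2 := by
  have hab : ∀ γ : Γ, 0 ≤ al (hm g₁ g₂ γ) (Real.exp ξ) * be (hm g₁ g₂ γ) (Real.exp ξ) :=
    fun γ => al_be_nonneg hd γ (Real.exp ξ) (Real.exp_pos ξ)
  rw [continuous_iff_continuousAt]
  intro p
  set T : ℝ := |p.2| + 1
  have hU : {p' : ℝ × ℝ | |p'.2| < T} ∈ 𝓝 p := by
    apply IsOpen.mem_nhds
    · exact isOpen_lt (continuous_abs.comp continuous_snd) continuous_const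
    · change |p.2| < T
      simp [T]
  refine ContinuousOn.continuousAt ?_ hU
  apply continuousOn_tsum (u := fun γ : Γ => Real.exp (-T) ^ (-(1 / 2) : ℝ) *
    qf (hm g₁ g₂ γ) (Real.exp ξ) ^ (-(1 / 2) : ℝ))
  · intro γ
    apply Continuous.continuousOn
    rw [continuous_iff_continuousAt]
    intro p'
    have h1 : ContinuousAt (fun x : ℂ => x ^ (-(sp lam)))
        (Bf (hm g₁ g₂ γ) (Real.exp ξ) p'.1 p'.2 : ℂ) :=
      continuousAt_cpow_const (Complex.ofReal_mem_slitPlane.mpr (Bf_pos _ _ _ _ (hab γ)))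
    exact ContinuousAt.comp (f := fun p : ℝ × ℝ =>
      (Bf (hm g₁ g₂ γ) (Real.exp ξ) p.1 p.2 : ℂ)) h1
      (Complex.continuous_ofReal.comp (continuous_Bf _ _)).continuousAt
  · exact (summable_qf hΓ hf g₂ ξ).mul_left _
  · intro γ p' hp'
    rw [norm_cpow_sp lam _ (Bf_pos _ _ _ _ (hab γ))]
    exact rpow_Bf_le hd ξ T _ _ (le_of_lt hp') γ

/-- the constant -/
def Ac (ξ lam : ℝ) : ℂ := 1 / (4 * (Real.pi : ℂ)) * Complex.betaIntegral (sp lam) (sp lam) *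
  ((1 / (8 * Real.exp ξ) : ℝ) : ℂ) ^ (-(sp lam))

lemma Ac_ne_zero (ξ lam : ℝ) : Ac ξ lam ≠ 0 := by
  have hs : 0 < (sp lam).re := by rw [sp_re]; norm_num
  have hpi : (Real.pi : ℂ) ≠ 0 := Complex.ofReal_ne_zero.mpr Real.pi_ne_zero
  have h1 : (1 : ℂ) / (4 * (Real.pi : ℂ)) ≠ 0 :=
    div_ne_zero one_ne_zero (mul_ne_zero (by norm_num) hpi)
  have h2 : ((1 / (8 * Real.exp ξ) : ℝ) : ℂ) ^ (-(sp lam)) ≠ 0 := by
    rw [Complex.cpow_ne_zero_iff]
    left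
    rw [Complex.ofReal_ne_zero]
    positivity
  exact mul_ne_zero (mul_ne_zero h1 (beta_ne_zero _ hs)) h2

lemma series_eq {g₁ g₂ : SL(2, ℝ)} (hd : DisjointFunnels Γ g₁ g₂) (ξ lam x θ : ℝ) :
    (∑' γ : Γ, 1 / (4 * (Real.pi : ℂ)) * (Complex.betaIntegral (sp lam) (sp lam) *
        (Kf (hm g₁ g₂ γ) (Real.exp ξ) (fermi x θ) : ℂ) ^ (-(sp lam)))) =
      Ac ξ lam * (Real.exp x : ℂ) ^ (-(sp lam)) * Sf Γ g₁ g₂ ξ lam x θ := by
  rw [Sf, ← tsum_mul_left]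
  apply tsum_congr
  intro γ
  have hab := al_be_nonneg hd γ (Real.exp ξ) (Real.exp_pos ξ)
  have hB := Bf_pos (hm g₁ g₂ γ) (Real.exp ξ) x θ hab
  have h8 : (0 : ℝ) ≤ 1 / (8 * Real.exp ξ) := by positivity
  rw [Kf_fermi _ _ (Real.exp_pos ξ)]
  have e : Real.exp x / (8 * Real.exp ξ) * Bf (hm g₁ g₂ γ) (Real.exp ξ) x θ =
      (1 / (8 * Real.exp ξ)) * (Real.exp x * Bf (hm g₁ g₂ γ) (Real.exp ξ) x θ) := by ring
  rw [e, Complex.ofReal_mul (1 / (8 * Real.exp ξ)),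
    Complex.mul_cpow_ofReal_nonneg h8 (mul_pos (Real.exp_pos x) hB).le,
    Complex.ofReal_mul (Real.exp x), Complex.mul_cpow_ofReal_nonneg (Real.exp_pos x).le hB.le, Ac]
  ring

lemma exp_cpow (lam x : ℝ) : (Real.exp x : ℂ) ^ (-(sp lam)) =
    (Real.exp (-(x / 2)) : ℂ) * Complex.exp (-(lam * x : ℝ) * Complex.I) := by
  rw [Complex.ofReal_exp, Complex.ofReal_exp, Complex.cpow_def_of_ne_zero (Complex.exp_ne_zero _),
    ← Complex.ofReal_exp, ← Complex.ofReal_log (Real.exp_pos x).le, Real.log_exp,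
    ← Complex.exp_add, sp]
  congr 1
  push_cast
  ring

/-- real part of the Eisenstein series in the second funnel -/
def Ff (Γ : Subgroup SL(2, ℝ)) (g₁ g₂ : SL(2, ℝ)) (ξ lam x θ : ℝ) : ℝ :=
  (Ac ξ lam * (Real.exp x : ℂ) ^ (-(sp lam)) * Sf Γ g₁ g₂ ξ lam x θ).re

lemma continuous_Ff (hΓ : ExponentLtHalf Γ) {g₁ : SL(2, ℝ)} {ℓ₁ : ℝ} (hf : IsFunnel Γ g₁ ℓ₁)
    {g₂ : SL(2, ℝ)} (hd : DisjointFunnels Γ g₁ g₂) (ξ lam : ℝ) :
    Continuous fun p : ℝ × ℝ => Ff Γ g₁ g₂ ξ lam p.1 p.2 := by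
  unfold Ff
  apply Complex.continuous_re.comp
  apply Continuous.mul
  · apply Continuous.mul continuous_const
    simp only [exp_cpow]
    fun_prop
  · exact continuousOn_Sf hΓ hf hd ξ lam

/-- the radii at which the sign is constant along the circle -/
def xk (ξ lam : ℝ) (k : ℕ) : ℝ := (Ac ξ lam).arg / lam + k * (Real.pi / |lam|)

lemma Ff_xk {g₁ g₂ : SL(2, ℝ)} (ξ lam : ℝ) (hlam : lam ≠ 0) (k : ℕ) (θ : ℝ) :
    Ff Γ g₁ g₂ ξ lam (xk ξ lam k) θ = (-1) ^ k * (‖Ac ξ lam‖ * Real.exp (-(xk ξ lam k / 2)) *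
      (Sf Γ g₁ g₂ ξ lam (xk ξ lam k) θ).re) := by
  rw [Ff, exp_cpow]
  have h1 : Ac ξ lam * Complex.exp (-((lam * xk ξ lam k : ℝ) : ℂ) * Complex.I) =
      ((-1) ^ k * ‖Ac ξ lam‖ : ℝ) := by
    conv_lhs => rw [← Complex.norm_mul_exp_arg_mul_I (Ac ξ lam)]
    rw [mul_assoc, ← Complex.exp_add]
    have h2 : (Complex.arg (Ac ξ lam) : ℂ) * Complex.I +
        -((lam * xk ξ lam k : ℝ) : ℂ) * Complex.I =
        ((-(k * Real.pi * (lam / |lam|)) : ℝ) : ℂ) * Complex.I := by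
      rw [xk]
      have : lam * ((Ac ξ lam).arg / lam + k * (Real.pi / |lam|)) =
          (Ac ξ lam).arg + k * Real.pi * (lam / |lam|) := by
        field_simp
      rw [this]
      push_cast
      ring
    rw [h2]
    have h3 : Complex.exp (((-(k * Real.pi * (lam / |lam|)) : ℝ) : ℂ) * Complex.I) =
        (((-1) ^ k : ℝ) : ℂ) := by
      have h4 : lam / |lam| = 1 ∨ lam / |lam| = -1 := by
        rcases lt_or_gt_of_ne hlam with h | h
        · right; rw [abs_of_neg h]; field_simp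
        · left; rw [abs_of_pos h]; field_simp
      rw [Complex.exp_mul_I, ← Complex.ofReal_cos, ← Complex.ofReal_sin]
      rcases h4 with h | h
      · rw [h, mul_one, Real.cos_neg, Real.sin_neg, Real.cos_nat_mul_pi, Real.sin_nat_mul_pi]
        simp
      · rw [h, mul_neg_one, neg_neg, Real.cos_nat_mul_pi, Real.sin_nat_mul_pi]
        simp
    rw [h3]
    push_cast
    ring
  have h5 : Ac ξ lam * ((Real.exp (-(xk ξ lam k / 2)) : ℂ) *
      Complex.exp (-((lam * xk ξ lam k : ℝ) : ℂ) * Complex.I)) * Sf Γ g₁ g₂ ξ lam (xk ξ lam k) θ =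
      (((-1) ^ k * ‖Ac ξ lam‖ * Real.exp (-(xk ξ lam k / 2)) : ℝ) : ℂ) *
        Sf Γ g₁ g₂ ξ lam (xk ξ lam k) θ := by
    have : Ac ξ lam * ((Real.exp (-(xk ξ lam k / 2)) : ℂ) *
      Complex.exp (-((lam * xk ξ lam k : ℝ) : ℂ) * Complex.I)) =
      (Ac ξ lam * Complex.exp (-((lam * xk ξ lam k : ℝ) : ℂ) * Complex.I)) *
        (Real.exp (-(xk ξ lam k / 2)) : ℂ) := by ring
    rw [this, h1]
    push_cast
    ring
  rw [h5, Complex.re_ofReal_mul]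
  ring

end

end Pool.Agent.helper18.Eis
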